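import Pool.Agent.Lib.MP_305fdd_al.VF.S.Stm

/-!
# MP_305fdd_al, project VF, piece [VF S16]: almost invariant subsets of virtually free groups
-/

set_option autoImplicit false
set_option linter.unusedVariables false

namespace Pool.Agent.VFS

/-- [VF S16] -/
theorem p_ai (h15 : S_free) : S_ai := by
  intro V _ N hN r he
  obtain ⟨e⟩ := he
  obtain ⟨A0, hA1, hA2, hA3⟩ := h15 r
  classical
  -- the almost invariant subset of `N`
  let A : Set N := {n | e n ∈ A0}
  have hAinf : A.Infinite := by
    have h := hA1.image (f := e.symm) e.symm.injective.injOn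
    refine h.mono ?_
    rintro _ ⟨a, ha, rfl⟩
    change e (e.symm a) ∈ A0
    rwa [MulEquiv.apply_symm_apply]
  have hAcinf : (Aᶜ).Infinite := by
    have h := hA2.image (f := e.symm) e.symm.injective.injOn
    refine h.mono ?_
    rintro _ ⟨a, ha, rfl⟩
    change ¬ (e (e.symm a) ∈ A0)
    rwa [MulEquiv.apply_symm_apply]
  have hAfin : ∀ m : N, {n : N | ¬ (n ∈ A ↔ n * m ∈ A)}.Finite := by
    intro m
    refine ((hA3 (e m)).image e.symm).subset ?_
    intro n hn
    refine ⟨e n, ?_, e.symm_apply_apply n⟩
    intro h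
    apply hn
    change e n ∈ A0 ↔ e (n * m) ∈ A0
    rw [map_mul]
    exact h
  -- right cosets
  have : Finite (Quotient (QuotientGroup.rightRel N)) :=
    Finite.of_equiv (V ⧸ N) (QuotientGroup.quotientRightRelEquivQuotientLeftRel N).symm
  let q : V → Quotient (QuotientGroup.rightRel N) := fun x => Quotient.mk'' x
  have hout : ∀ x : V, x * (q x).out⁻¹ ∈ N := by
    intro x
    have h : (QuotientGroup.rightRel N) (q x).out x := Quotient.mk_out x
    rwa [QuotientGroup.rightRel_apply] at h
  have hq : ∀ (n : N) (x : V), q (n * x) = q x := by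
    intro n x
    refine Quotient.sound' ?_
    rw [QuotientGroup.rightRel_apply]
    have : x * ((n : V) * x)⁻¹ = ((n⁻¹ : N) : V) := by
      rw [mul_inv_rev, ← mul_assoc, mul_inv_cancel, one_mul]
      rfl
    rw [this]
    exact (n⁻¹ : N).2
  let nu : V → N := fun x => ⟨x * (q x).out⁻¹, hout x⟩
  have hnu : ∀ (n : N) (x : V), nu (n * x) = n * nu x := by
    intro n x
    apply Subtype.ext
    change (n : V) * x * (q (n * x)).out⁻¹ = n * (x * (q x).out⁻¹)
    rw [hq, mul_assoc]
  have hqo : ∀ c : Quotient (QuotientGroup.rightRel N), q c.out = c := fun c => Quotient.out_eq' c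
  have hnuo : ∀ c : Quotient (QuotientGroup.rightRel N), nu c.out = 1 := by
    intro c
    apply Subtype.ext
    change c.out * (q c.out).out⁻¹ = 1
    rw [hqo, mul_inv_cancel]
  have hnuno : ∀ (n : N) (c : Quotient (QuotientGroup.rightRel N)), nu (n * c.out) = n := by
    intro n c
    rw [hnu, hnuo, mul_one]
  have hdec : ∀ x : V, x = (nu x : V) * (q x).out := by
    intro x
    change x = x * (q x).out⁻¹ * (q x).out
    rw [inv_mul_cancel_right]
  have hinj : ∀ c : Quotient (QuotientGroup.rightRel N),
      Function.Injective fun n : N => (n : V) * c.out := by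
    intro c n m h
    exact Subtype.ext (mul_right_cancel h)
  refine ⟨{x | nu x ∈ A}, ?_, ?_, ?_⟩
  · have h := hAinf.image (f := fun n : N => (n : V) * (q 1).out) (hinj (q 1)).injOn
    refine h.mono ?_
    rintro _ ⟨n, hn, rfl⟩
    change nu ((n : V) * (q 1).out) ∈ A
    rwa [hnuno]
  · have h := hAcinf.image (f := fun n : N => (n : V) * (q 1).out) (hinj (q 1)).injOn
    refine h.mono ?_
    rintro _ ⟨n, hn, rfl⟩
    change ¬ (nu ((n : V) * (q 1).out) ∈ A)
    rwa [hnuno]
  · intro g
    have h : (⋃ c : Quotient (QuotientGroup.rightRel N),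
        (fun n : N => (n : V) * c.out) '' {n : N | ¬ (n ∈ A ↔ n * nu (c.out * g) ∈ A)}).Finite :=
      Set.finite_iUnion fun c => (hAfin _).image _
    refine h.subset ?_
    intro x hx
    refine Set.mem_iUnion.2 ⟨q x, nu x, ?_, (hdec x).symm⟩
    intro h'
    apply hx
    change nu x ∈ A ↔ nu (x * g) ∈ A
    have h2 : nu (x * g) = nu x * nu ((q x).out * g) := by
      rw [← hnu, ← mul_assoc, ← hdec]
    rw [h2]
    exact h'

end Pool.Agent.VFS
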