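import Pool.Agent.Lib.MP_305fdd_al.VF.S.Stm

/-! [VF S1] Boundaries of sets in a graph: complements and submodularity. -/

set_option autoImplicit false

namespace Pool.Agent.VFS

theorem p_bd : S_bd := by
  intro V X
  refine ⟨?_, ?_⟩
  · intro C
    ext ⟨x, y⟩
    simp only [bd, Set.mem_setOf_eq, Set.mem_compl_iff, not_not, Set.mem_image, Prod.exists,
      Prod.swap_prod_mk, Prod.mk.injEq]
    constructor
    · rintro ⟨h1, h2, h3⟩
      exact ⟨y, x, ⟨h1.symm, h3, h2⟩, rfl, rfl⟩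
    · rintro ⟨a, b, ⟨h1, h2, h3⟩, rfl, rfl⟩
      exact ⟨h1.symm, h3, h2⟩
  · intro C D hC hD
    have h1 : bd X (C ∩ D) ∪ bd X (C ∪ D) ⊆ bd X C ∪ bd X D := by
      rintro ⟨x, y⟩ h
      simp only [bd, Set.mem_union, Set.mem_setOf_eq, Set.mem_inter_iff] at h ⊢
      tauto
    have h2 : bd X (C ∩ D) ∩ bd X (C ∪ D) ⊆ bd X C ∩ bd X D := by
      rintro ⟨x, y⟩ h
      simp only [bd, Set.mem_union, Set.mem_setOf_eq, Set.mem_inter_iff] at h ⊢
      tauto
    have hCD : (bd X C ∪ bd X D).Finite := hC.union hD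
    have hf1 : (bd X (C ∩ D)).Finite := hCD.subset (Set.subset_union_left.trans h1)
    have hf2 : (bd X (C ∪ D)).Finite := hCD.subset (Set.subset_union_right.trans h1)
    refine ⟨hf1, hf2, ?_⟩
    rw [← Set.ncard_union_add_ncard_inter _ _ hf1 hf2,
      ← Set.ncard_union_add_ncard_inter _ _ hC hD]
    exact Nat.add_le_add (Set.ncard_le_ncard h1 hCD)
      (Set.ncard_le_ncard h2 (hC.subset Set.inter_subset_left))

end Pool.Agent.VFS
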