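import Pool.Agent.Lib.MP_305fdd_al.VF.S.Stm

/-!
# MP_305fdd_al, project VF, section S: the Cayley graph of a virtually free group (VF S17)
-/

set_option autoImplicit false

namespace Pool.Agent.VFS

private theorem cay_adj {G : Type} [Group G] (S : Set G) (x y : G) :
    (cay S).Adj x y ↔ x ≠ y ∧ ((∃ s ∈ S, y = x * s) ∨ (∃ s ∈ S, x = y * s)) := by
  unfold cay
  rw [SimpleGraph.fromRel_adj]

private theorem cay_step {G : Type} [Group G] (S : Set G) (x s : G) (hs : s ∈ S) :
    (cay S).Reachable x (x * s) := by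
  by_cases h : x = x * s
  · rw [← h]
  · exact SimpleGraph.Adj.reachable ((cay_adj S _ _).2 ⟨h, Or.inl ⟨s, hs, rfl⟩⟩)

private theorem cay_conn {G : Type} [Group G] (S : Set G) (hS : Subgroup.closure S = ⊤) :
    (cay S).Connected := by
  have key : ∀ x : G, (cay S).Reachable 1 x := by
    intro x
    have hx : x ∈ Subgroup.closure S := hS ▸ Subgroup.mem_top x
    induction hx using Subgroup.closure_induction_right with
    | one => exact SimpleGraph.Reachable.refl _
    | mul_right x hx y hy ih => exact ih.trans (cay_step S x y hy)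
    | mul_inv_cancel x hx y hy ih =>
      have h := cay_step S (x * y⁻¹) y hy
      rw [inv_mul_cancel_right] at h
      exact ih.trans h.symm
  haveI : Nonempty G := ⟨1⟩
  exact SimpleGraph.Connected.mk (fun x y => (key x).symm.trans (key y))

private theorem cay_left {G : Type} [Group G] (S : Set G) (g x y : G) (h : (cay S).Adj x y) :
    (cay S).Adj (g * x) (g * y) := by
  rw [cay_adj] at h ⊢
  refine ⟨fun e => h.1 (mul_left_cancel e), ?_⟩
  rcases h.2 with ⟨s, hs, e⟩ | ⟨s, hs, e⟩
  · exact Or.inl ⟨s, hs, by rw [e, mul_assoc]⟩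
  · exact Or.inr ⟨s, hs, by rw [e, mul_assoc]⟩

private theorem cay_cut {G : Type} [Group G] (S : Set G) (hS : S.Finite) (C : Set G) (hC : AI C) :
    Cut (cay S) C := by
  refine ⟨hC.1, hC.2.1, ?_⟩
  have h1 : (⋃ s ∈ S, (fun x : G => (x, x * s)) '' {x | ¬ (x ∈ C ↔ x * s ∈ C)}).Finite :=
    hS.biUnion fun s _ => (hC.2.2 s).image _
  have h2 : (⋃ s ∈ S, (fun x : G => (x, x * s⁻¹)) '' {x | ¬ (x ∈ C ↔ x * s⁻¹ ∈ C)}).Finite :=
    hS.biUnion fun s _ => (hC.2.2 s⁻¹).image _
  refine (h1.union h2).subset ?_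
  rintro ⟨x, y⟩ ⟨ha, hx, hy⟩
  rw [cay_adj] at ha
  rcases ha.2 with ⟨s, hs, e⟩ | ⟨s, hs, e⟩
  · left
    refine Set.mem_biUnion hs ⟨x, ?_, ?_⟩
    · rintro ⟨h, -⟩
      exact hy (by have := h hx; rwa [← e] at this)
    · exact Prod.ext rfl e.symm
  · right
    have e' : y = x * s⁻¹ := by
      have : x = y * s := e
      rw [this, mul_inv_cancel_right]
    refine Set.mem_biUnion hs ⟨x, ?_, ?_⟩
    · rintro ⟨h, -⟩
      exact hy (by have := h hx; rwa [← e'] at this)
    · exact Prod.ext rfl e'.symm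

private theorem cay_fg {V : Type} [Group V] (N : Subgroup V) (hN : N.FiniteIndex) (r : ℕ)
    (h : Nonempty (N ≃* FreeGroup (Fin (r + 1)))) :
    ∃ S : Set V, S.Finite ∧ Subgroup.closure S = ⊤ := by
  obtain ⟨e⟩ := h
  haveI : Group.FG N := by
    rw [Group.fg_iff]
    refine ⟨(fun i : Fin (r + 1) => e.symm (FreeGroup.of i)) '' Set.univ, ?_, Set.toFinite _⟩
    have h1 : (fun i : Fin (r + 1) => e.symm (FreeGroup.of i)) '' Set.univ =
        e.symm.toMonoidHom '' Set.range (FreeGroup.of : Fin (r + 1) → _) := by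
      rw [Set.image_univ, ← Set.range_comp]
      rfl
    rw [h1, ← MonoidHom.map_closure, FreeGroup.closure_range_of]
    exact Subgroup.map_top_of_surjective _ e.symm.surjective
  have hfg : N.FG := (Group.fg_iff_subgroup_fg N).1 inferInstance
  obtain ⟨S, hS⟩ := hfg
  refine ⟨(S : Set V) ∪ Set.range (fun q : V ⧸ N => q.out),
    S.finite_toSet.union (Set.finite_range _), ?_⟩
  rw [eq_top_iff]
  intro x _
  obtain ⟨n, hn⟩ := QuotientGroup.mk_out_eq_mul N x
  have hx : x = (x : V ⧸ N).out * (n : V)⁻¹ := by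
    rw [hn, mul_inv_cancel_right]
  rw [hx]
  refine Subgroup.mul_mem _ (Subgroup.subset_closure (Or.inr ⟨_, rfl⟩)) (Subgroup.inv_mem _ ?_)
  have : (n : V) ∈ Subgroup.closure (S : Set V) := by
    rw [hS]
    exact n.2
  exact Subgroup.closure_mono Set.subset_union_left this

/-- **[VF S17]** The Cayley graph of a virtually free group. -/
theorem p_cay : S_cay := by
  intro V _ N hN r h
  obtain ⟨S, hS, hgen⟩ := cay_fg N hN r h
  exact ⟨S, cay_conn S hgen, cay_left S, cay_cut S hS⟩

end Pool.Agent.VFS
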