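import Pool.Agent.Lib.MP_305fdd_al.VF.S.Stm

/-!
# MP_305fdd_al, project VF, [VF S2]: minimal cuts are connected
-/

set_option autoImplicit false

namespace Pool.Agent.VFS

/-- a connected graph has an edge which leaves `D`, if `D` and its complement are nonempty -/
theorem conn_bd_nonempty {V : Type} {X : SimpleGraph V} (hX : X.Connected) {D : Set V}
    (h1 : D.Nonempty) (h2 : (Dᶜ).Nonempty) : (bd X D).Nonempty := by
  obtain ⟨x, hx⟩ := h1
  obtain ⟨y, hy⟩ := h2
  obtain ⟨p⟩ := hX.preconnected x y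
  obtain ⟨d, -, hd1, hd2⟩ := p.exists_boundary_dart D hx hy
  exact ⟨(d.fst, d.snd), d.adj, hd1, hd2⟩

private theorem conn_aux {V : Type} {X : SimpleGraph V} (hX : X.Connected) {C : Set V}
    (hC : MC X C) {D E : Set V} (hDE : D ∪ E = C) (hdis : ∀ x ∈ D, x ∉ E)
    (hE : E.Nonempty) (hinf : D.Infinite) (hno : ∀ a ∈ D, ∀ b ∈ E, ¬ X.Adj a b) : False := by
  have hDC : D ⊆ C := hDE ▸ Set.subset_union_left
  have hEC : E ⊆ C := hDE ▸ Set.subset_union_right
  have hbD : bd X D ⊆ bd X C := by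
    rintro ⟨a, b⟩ ⟨hab, ha, hb⟩
    refine ⟨hab, hDC ha, fun hbC => ?_⟩
    rw [← hDE] at hbC
    rcases hbC with h | h
    · exact hb h
    · exact hno a ha b h hab
  have hcut : Cut X D := by
    refine ⟨hinf, hC.1.2.1.mono (Set.compl_subset_compl.2 hDC), hC.1.2.2.subset hbD⟩
  obtain ⟨⟨a, b⟩, hab, ha, hb⟩ := conn_bd_nonempty hX hE
    (hC.1.2.1.mono (Set.compl_subset_compl.2 hEC)).nonempty
  simp only at hab ha hb
  have hbC : b ∉ C := by
    intro hbC
    rw [← hDE] at hbC
    rcases hbC with h | h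
    · exact hno b h a ha hab.symm
    · exact hb h
  have hss : bd X D ⊂ bd X C := by
    refine ⟨hbD, fun h => ?_⟩
    have h3 : (a, b) ∈ bd X D := h ⟨hab, hEC ha, hbC⟩
    exact hdis a h3.2.1 ha
  have h4 := Set.ncard_lt_ncard hss hC.1.2.2
  have h5 := hC.2 D hcut
  omega

theorem p_conn : S_conn := by
  intro V X hX C hC D hDC hD hCD
  by_contra hno
  push Not at hno
  have hDE : D ∪ (C \ D) = C := Set.union_diff_cancel hDC
  have hinf : (D ∪ (C \ D)).Infinite := by rw [hDE]; exact hC.1.1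
  rcases Set.infinite_union.1 hinf with h | h
  · exact conn_aux hX hC hDE (fun x hx h => h.2 hx) hCD h hno
  · exact conn_aux hX hC (by rw [Set.union_comm]; exact hDE) (fun x hx h => hx.2 h) hD h
      (fun a ha b hb hab => hno b hb a ha hab.symm)

end Pool.Agent.VFS
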