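import Pool.Agent.Lib.MP_305fdd_al.VF.S.Stm

/-!
# MP_305fdd_al, project VF, section S: a minimal cut is crossed by finitely many minimal cuts
-/

set_option autoImplicit false

namespace Pool.Agent.VFS

private theorem cross_compl (h1 : S_bd) {V : Type} (X : SimpleGraph V) {D : Set V} (hD : MC X D) :
    MC X Dᶜ := by
  obtain ⟨⟨hi, hi', hf⟩, hm⟩ := hD
  have hb := (h1 V X).1 D
  refine ⟨⟨hi', by rwa [compl_compl], by rw [hb]; exact hf.image _⟩, fun E hE => ?_⟩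
  rw [hb, Set.ncard_image_of_injective _ Prod.swap_injective]
  exact hm E hE

private theorem cross_edge {V : Type} {X : SimpleGraph V} {C D : Set V} (hD : Conn X D)
    (ha : (D ∩ C).Nonempty) (hb : (D \ C).Nonempty) : ∃ p ∈ bd X C, p.1 ∈ D := by
  obtain ⟨y, hyD, hyC⟩ := hb
  obtain ⟨a, ha, b, hb, hab⟩ := hD (D ∩ C) Set.inter_subset_left ha
    ⟨y, hyD, fun h => hyC h.2⟩
  exact ⟨(a, b), ⟨hab, ha.2, fun h => hb.2 ⟨hb.1, h⟩⟩, ha.1⟩

theorem p_cross (h1 : S_bd) (h2 : S_conn) (h4 : S_sep) : S_cross := by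
  intro V X hX C hC
  have hfin : (bd X C).Finite := hC.1.2.2
  refine (hfin.biUnion fun p _ => hfin.biUnion fun q _ => h4 V X hX p.1 q.1).subset ?_
  rintro D ⟨hD, hn⟩
  unfold Nest at hn
  push Not at hn
  obtain ⟨n1, n2, n3, n4⟩ := hn
  obtain ⟨x1, hx1, hx1'⟩ := Set.not_subset.1 n1
  obtain ⟨x2, hx2, hx2'⟩ := Set.not_subset.1 n2
  obtain ⟨x3, hx3, hx3'⟩ := Set.not_subset.1 n3
  obtain ⟨x4, hx4, hx4'⟩ := Set.not_subset.1 n4
  obtain ⟨p, hp, hpD⟩ := cross_edge (C := C) (h2 V X hX D hD)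
    ⟨x2, not_not.1 hx2', hx2⟩ ⟨x4, not_not.1 hx4', hx4⟩
  obtain ⟨q, hq, hqD⟩ := cross_edge (C := C) (h2 V X hX Dᶜ (cross_compl h1 X hD))
    ⟨x1, hx1', hx1⟩ ⟨x3, hx3', hx3⟩
  simp only [Set.mem_iUnion]
  exact ⟨p, hp, q, hq, hD, hpD, hqD⟩

end Pool.Agent.VFS
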