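import Pool.Agent.Lib.MP_305fdd_al.VF.S.Stm

/-!
# MP_305fdd_al, project VF, section S, piece S15: an almost invariant subset of a free group
-/

set_option autoImplicit false

namespace Pool.Agent.VFS

/-- the last letter of the reduced word -/
private def lst {α : Type} [DecidableEq α] (u : FreeGroup α) : Option (α × Bool) :=
  u.toWord.getLast?

private theorem lst_gen {α : Type} [DecidableEq α] [Finite α] (x : α × Bool) :
    {u : FreeGroup α | lst u ≠ lst (FreeGroup.mk [x] * u)}.Finite := by
  have hfin : (Set.range fun y : α × Bool => FreeGroup.mk [y]).Finite := Set.finite_range _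
  refine (hfin.union (Set.finite_singleton (1 : FreeGroup α))).subset ?_
  intro u hu
  by_contra hcon
  apply hu
  have h1 : u ≠ 1 := fun h => hcon (Or.inr h)
  have h2 : ∀ y : α × Bool, FreeGroup.mk [y] ≠ u := fun y h => hcon (Or.inl ⟨y, h⟩)
  have hred : FreeGroup.reduce u.toWord = u.toWord := FreeGroup.reduce_toWord u
  have hprod : (FreeGroup.mk [x] * u).toWord = FreeGroup.reduce (x :: u.toWord) := by
    conv_lhs => rw [← FreeGroup.mk_toWord (x := u), FreeGroup.mul_mk]
    rfl
  have hmk : FreeGroup.mk u.toWord = u := FreeGroup.mk_toWord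
  unfold lst
  rw [hprod, FreeGroup.reduce.cons, hred]
  rcases hL : u.toWord with _ | ⟨a, _ | ⟨b, tl⟩⟩
  · exact absurd (FreeGroup.toWord_eq_nil_iff.1 hL) h1
  · exact absurd (by rw [← hL]; exact hmk) (h2 a)
  · dsimp only
    split_ifs
    · rw [List.getLast?_cons_cons]
    · rw [List.getLast?_cons_cons, List.getLast?_cons_cons, List.getLast?_cons_cons]

private theorem lst_mul {α : Type} [DecidableEq α] [Finite α] (g : FreeGroup α) :
    {u : FreeGroup α | lst u ≠ lst (g * u)}.Finite := by
  induction g using FreeGroup.induction_on with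
  | C1 => simp
  | of x => exact lst_gen (x, true)
  | inv_of x _ => exact lst_gen (x, false)
  | mul g h hg hh =>
    refine (hh.union (hg.preimage (f := fun u => h * u)
      (mul_right_injective h).injOn)).subset ?_
    intro u hu
    by_cases h1 : lst u = lst (h * u)
    · refine Or.inr ?_
      simp only [Set.mem_preimage, Set.mem_setOf_eq]
      rw [← h1, ← mul_assoc]
      exact hu
    · exact Or.inl h1

theorem p_free : S_free := by
  intro r
  classical
  have hinj : Function.Injective fun n : ℕ => (FreeGroup.of (0 : Fin (r + 1))) ^ n := by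
    intro m n hmn
    have h := congrArg (fun u : FreeGroup (Fin (r + 1)) => u.toWord.length) hmn
    simpa using h
  refine ⟨{w | lst w⁻¹ = some (0, true)}, ?_, ?_, ?_⟩
  · refine Set.infinite_of_injective_forall_mem
      (f := fun n : ℕ => ((FreeGroup.of (0 : Fin (r + 1))) ^ (n + 1))⁻¹) ?_ ?_
    · intro m n hmn
      have := hinj (inv_injective hmn)
      omega
    · intro n
      simp only [Set.mem_setOf_eq, inv_inv, lst]
      rw [FreeGroup.toWord_of_pow, List.getLast?_replicate]
      simp
  · refine Set.infinite_of_injective_forall_mem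
      (f := fun n : ℕ => ((FreeGroup.of (0 : Fin (r + 1))) ^ n)) hinj ?_
    intro n
    simp only [Set.mem_compl_iff, Set.mem_setOf_eq, lst]
    rw [FreeGroup.toWord_inv, FreeGroup.toWord_of_pow, FreeGroup.invRev, List.map_replicate,
      List.reverse_replicate, List.getLast?_replicate]
    split_ifs <;> simp
  · intro g
    refine ((lst_mul g⁻¹).preimage (f := fun w => w⁻¹) inv_injective.injOn).subset ?_
    intro w hw
    simp only [Set.mem_preimage, Set.mem_setOf_eq] at hw ⊢
    intro h
    apply hw
    rw [mul_inv_rev, ← h]

end Pool.Agent.VFS
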