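import Pool.Agent.Lib.MP_305fdd_al.VF.S.Stm

/-!
# MP_305fdd_al, project VF, section S: the key inequality for crossing minimal cuts
-/

set_option autoImplicit false

namespace Pool.Agent.VFS

private theorem ineq_symm {V : Type} {C D : Set V} (h : Nest C D) : Nest D C := by
  unfold Nest at *
  rcases h with h | h | h | h
  · exact Or.inr (Or.inr (Or.inr (Set.compl_subset_compl.2 h)))
  · exact Or.inr (Or.inl (Set.subset_compl_comm.1 h))
  · exact Or.inr (Or.inr (Or.inl (Set.compl_subset_comm.1 h)))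
  · exact Or.inl (Set.compl_subset_compl.1 h)

private theorem ineq_inter {V : Type} {C D E : Set V} (h1 : Nest C E) (h2 : Nest D E)
    (hne : ((C ∪ D)ᶜ).Nonempty) : Nest (C ∩ D) E := by
  obtain ⟨x, hx⟩ := hne
  rw [Set.compl_union] at hx
  unfold Nest at *
  rw [Set.compl_inter]
  rcases h1 with h | h | h | h
  · exact Or.inl (Set.inter_subset_left.trans h)
  · exact Or.inr (Or.inl (Set.inter_subset_left.trans h))
  · rcases h2 with h' | h' | h' | h'
    · exact Or.inl (Set.inter_subset_right.trans h')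
    · exact Or.inr (Or.inl (Set.inter_subset_right.trans h'))
    · exact Or.inr (Or.inr (Or.inl (Set.union_subset h h')))
    · exact absurd (h hx.1) (h' hx.2)
  · rcases h2 with h' | h' | h' | h'
    · exact Or.inl (Set.inter_subset_right.trans h')
    · exact Or.inr (Or.inl (Set.inter_subset_right.trans h'))
    · exact absurd (h' hx.2) (h hx.1)
    · exact Or.inr (Or.inr (Or.inr (Set.union_subset h h')))

private theorem ineq_compl {V : Type} {C E : Set V} : Nest Cᶜ E ↔ Nest C E := by
  unfold Nest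
  rw [compl_compl]
  tauto

private theorem ineq_union {V : Type} {C D E : Set V} (h1 : Nest C E) (h2 : Nest D E)
    (hne : (C ∩ D).Nonempty) : Nest (C ∪ D) E := by
  rw [← ineq_compl, Set.compl_union]
  refine ineq_inter (ineq_compl.2 h1) (ineq_compl.2 h2) ?_
  rwa [Set.compl_union, compl_compl, compl_compl]

private theorem ineq_left {V : Type} {C D E : Set V} (h1 : Nest C E) :
    Nest (C ∩ D) E ∨ Nest (C ∪ D) E := by
  unfold Nest at *
  rw [Set.compl_union]
  rcases h1 with h | h | h | h
  · exact Or.inl (Or.inl (Set.inter_subset_left.trans h))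
  · exact Or.inl (Or.inr (Or.inl (Set.inter_subset_left.trans h)))
  · exact Or.inr (Or.inr (Or.inr (Or.inl (Set.inter_subset_left.trans h))))
  · exact Or.inr (Or.inr (Or.inr (Or.inr (Set.inter_subset_left.trans h))))

private theorem ineq_right {V : Type} {C D E : Set V} (h1 : Nest D E) :
    Nest (C ∩ D) E ∨ Nest (C ∪ D) E := by
  rw [Set.inter_comm, Set.union_comm]
  exact ineq_left h1

theorem p_ineq (h1 : S_bd) (h5 : S_cross) : S_ineq := by
  intro V X hX C D hC hD hn hi hu
  obtain ⟨hfi, hfu, hsub⟩ := (h1 V X).2 C D hC.1.2.2 hD.1.2.2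
  have hneI : (C ∩ D).Nonempty := hi.nonempty
  have hneU : ((C ∪ D)ᶜ).Nonempty := hu.nonempty
  -- the two corners are cuts
  have cutI : Cut X (C ∩ D) := by
    refine ⟨hi, hu.mono ?_, hfi⟩
    exact Set.compl_subset_compl.2 (Set.inter_subset_left.trans Set.subset_union_left)
  have cutU : Cut X (C ∪ D) := by
    refine ⟨hi.mono (Set.inter_subset_left.trans Set.subset_union_left), hu, hfu⟩
  have e1 := hC.2 D hD.1
  have e2 := hD.2 C hC.1
  have e3 := hC.2 _ cutI
  have e4 := hC.2 _ cutU
  have mcI : MC X (C ∩ D) := ⟨cutI, fun E hE => by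
    have := hC.2 E hE
    omega⟩
  have mcU : MC X (C ∪ D) := ⟨cutU, fun E hE => by
    have := hC.2 E hE
    omega⟩
  refine ⟨mcI, mcU, ?_⟩
  have fC := h5 V X hX C hC
  have fD := h5 V X hX D hD
  have fI := h5 V X hX _ mcI
  have fU := h5 V X hX _ mcU
  have s1 : cr X (C ∩ D) ∪ cr X (C ∪ D) ⊆ (cr X C ∪ cr X D) \ {C} := by
    rintro E (⟨hE, hE'⟩ | ⟨hE, hE'⟩)
    · refine ⟨?_, ?_⟩
      · by_contra hcon
        rw [Set.mem_union, not_or] at hcon
        apply hE'
        refine ineq_inter ?_ ?_ hneU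
        · by_contra h
          exact hcon.1 ⟨hE, h⟩
        · by_contra h
          exact hcon.2 ⟨hE, h⟩
      · rintro rfl
        exact hE' (Or.inl Set.inter_subset_left)
    · refine ⟨?_, ?_⟩
      · by_contra hcon
        rw [Set.mem_union, not_or] at hcon
        apply hE'
        refine ineq_union ?_ ?_ hneI
        · by_contra h
          exact hcon.1 ⟨hE, h⟩
        · by_contra h
          exact hcon.2 ⟨hE, h⟩
      · rintro rfl
        exact hE' (Or.inr (Or.inr (Or.inr (Set.compl_subset_compl.2 Set.subset_union_left))))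
  have s2 : cr X (C ∩ D) ∩ cr X (C ∪ D) ⊆ cr X C ∩ cr X D := by
    rintro E ⟨⟨hE, hI⟩, ⟨_, hU⟩⟩
    refine ⟨⟨hE, fun h => ?_⟩, ⟨hE, fun h => ?_⟩⟩
    · rcases ineq_left (D := D) h with h | h
      · exact hI h
      · exact hU h
    · rcases ineq_right (C := C) h with h | h
      · exact hI h
      · exact hU h
  have hmem : C ∈ cr X C ∪ cr X D := Or.inr ⟨hC, fun h => hn (ineq_symm h)⟩
  have c1 := Set.ncard_union_add_ncard_inter (cr X (C ∩ D)) (cr X (C ∪ D)) fI fU
  have c2 := Set.ncard_union_add_ncard_inter (cr X C) (cr X D) fC fD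
  have c3 := Set.ncard_le_ncard s1 ((fC.union fD).sdiff)
  have c4 := Set.ncard_le_ncard s2 (fC.inter_of_left _)
  have c5 := Set.ncard_sdiff_singleton_lt_of_mem hmem (fC.union fD)
  omega

end Pool.Agent.VFS
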