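import Pool.Agent.Lib.MP_305fdd_al.VF.S.Stm

set_option autoImplicit false

namespace Pool.Agent.VFS

open Pointwise

section
variable {G V : Type} [Group G] [MulAction G V] {M : Set (Set V)}

private theorem mov_pt (hG : ∀ (g : G), ∀ C ∈ M, g • C ∈ M) (g : G) (D : Set V) (x : TV M) :
    letI := actTV hG
    pt M (g • D) (g • x) = pt M D x := by
  classical
  let _ := actTV hG
  rcases x with U | e
  · have h1 : g • D ∈ g • U.1 ↔ D ∈ U.1 := Set.smul_mem_smul_set_iff
    change (if g • D ∈ g • U.1 then (1 : ℤ) else 0) = if D ∈ U.1 then 1 else 0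
    by_cases h : D ∈ U.1
    · rw [if_pos h, if_pos (h1.2 h)]
    · rw [if_neg h, if_neg (fun h' => h (h1.1 h'))]
  · have h1 : (g • D ∉ g • e.1 ∧ ∃ E ∈ g • e.1, E ⊆ g • D) ↔ (D ∉ e.1 ∧ ∃ E ∈ e.1, E ⊆ D) := by
      refine and_congr (not_congr Set.smul_mem_smul_set_iff) ?_
      constructor
      · rintro ⟨_, ⟨E, hE, rfl⟩, h⟩
        exact ⟨E, hE, Set.smul_set_subset_smul_set_iff.1 h⟩
      · rintro ⟨E, hE, h⟩
        exact ⟨g • E, ⟨E, hE, rfl⟩, Set.smul_set_subset_smul_set_iff.2 h⟩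
    change (if (g • D ∉ g • e.1 ∧ ∃ E ∈ g • e.1, E ⊆ g • D) then (1 : ℤ) else 0) =
      if (D ∉ e.1 ∧ ∃ E ∈ e.1, E ⊆ D) then 1 else 0
    by_cases h : (D ∉ e.1 ∧ ∃ E ∈ e.1, E ⊆ D)
    · rw [if_pos h, if_pos (h1.2 h)]
    · rw [if_neg h, if_neg (fun h' => h (h1.1 h'))]

private theorem mov_uc (h8 : S_ori) (hM : NF M) (hG : ∀ (g : G), ∀ C ∈ M, g • C ∈ M) (g : G)
    {C : Set V} (hC : C ∈ M) : g • UC M C = UC M (g • C) := by
  obtain ⟨h1, h2, -⟩ := h8 V M hM C hC
  refine (h8 V M hM (g • C) (hG g C hC)).2.2 _ (ori_smul hG g h1) ?_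
  refine ⟨Set.smul_mem_smul_set h2.1, ?_⟩
  rintro _ ⟨D, hD, rfl⟩ hDC
  have hDC' : D ⊆ C := Set.smul_set_subset_smul_set_iff.1 hDC
  change g • D = g • C
  rw [h2.2 D hD hDC']

private def movU (C : Set V) (h : Ori M (UC M C)) : TV M := Sum.inl ⟨UC M C, h⟩

private def movE (C : Set V) (hC : C ∈ M) : TV M := Sum.inr ⟨{C, Cᶜ}, C, hC, rfl⟩

/-- the potentials of the translates of `C` do not change along the edges outside of the orbit -/
private theorem mov_edge (h8 : S_ori) (h10 : S_pt) (hM : NF M)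
    (hG : ∀ (g : G), ∀ C ∈ M, g • C ∈ M) {C : Set V} (hC : C ∈ M) (h : Ori M (UC M C)) (g : G)
    (a b : TV M) (hab : (TG M).Adj a b) :
    letI := actTV hG
    s(a, b) ∉ FrT.Orb G (movU C h) (movE C hC) → pt M (g • C) a = pt M (g • C) b := by
  let _ := actTV hG
  intro hO
  by_contra hne
  apply hO
  have hgC := hG g C hC
  have hori := (h8 V M hM (g • C) hgC).1
  have e1 : g • movU C h = movU (g • C) hori :=
    congrArg Sum.inl (Subtype.ext (mov_uc h8 hM hG g hC))
  have e2 : g • movE C hC = movE (g • C) hgC := by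
    refine congrArg Sum.inr (Subtype.ext ?_)
    change g • ({C, Cᶜ} : Set (Set V)) = {g • C, (g • C)ᶜ}
    rw [Set.smul_set_insert, Set.smul_set_singleton, Set.smul_set_compl]
  refine ⟨g, ?_⟩
  rw [e1, e2]
  rcases (h10 V M hM (g • C) hgC hori).2.2 a b hab hne with ⟨ha, hb⟩ | ⟨ha, hb⟩
  · rw [ha, hb]; rfl
  · rw [ha, hb]; exact Sym2.eq_swap

private theorem mov_rch (h8 : S_ori) (h10 : S_pt) (hM : NF M)
    (hG : ∀ (g : G), ∀ C ∈ M, g • C ∈ M) {C : Set V} (hC : C ∈ M) (h : Ori M (UC M C)) (g : G)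
    (a b : TV M) :
    letI := actTV hG
    FrT.Rch G (TG M) (movU C h) (movE C hC) a b → pt M (g • C) a = pt M (g • C) b := by
  let _ := actTV hG
  rintro ⟨w⟩
  induction w with
  | nil => rfl
  | @cons a b c hab w ih =>
    rw [SimpleGraph.deleteEdges_adj] at hab
    exact (mov_edge h8 h10 hM hG hC h g a b hab.1 hab.2).trans ih

end

/-- for a vertex: both the positive and the negative half line are separated -/
private theorem mov_inf {V : Type} {M : Set (Set V)} (A : ℤ → Set V) (hA : StrictAnti A)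
    (hAM : ∀ n, A n ∈ M) (y : V) (hy0 : y ∈ A 0) (hy1 : y ∉ A 1) {U : Set (Set V)} (hU : Ori M U) :
    {n | A n ∈ U}.Infinite ∧ {n | A n ∉ U}.Infinite := by
  have hfin := hU.2.2.2 y
  constructor
  · have h1 : {n : ℤ | n ≤ 0 ∧ A n ∉ U}.Finite := by
      refine Set.Finite.of_finite_image (f := fun n => (A n)ᶜ) (hfin.subset ?_) ?_
      · rintro _ ⟨n, ⟨hn, hnU⟩, rfl⟩
        refine ⟨?_, ?_⟩
        · by_contra h
          exact hnU ((hU.2.1 (A n) (hAM n)).2 h)
        · intro h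
          exact h (hA.antitone hn hy0)
      · intro a _ b _ hab
        exact hA.injective (compl_injective hab)
    refine ((Set.Iic_infinite (0 : ℤ)).sdiff h1).mono ?_
    rintro n ⟨hn, hn'⟩
    by_contra h
    exact hn' ⟨hn, h⟩
  · have h1 : {n : ℤ | 1 ≤ n ∧ A n ∈ U}.Finite := by
      refine Set.Finite.of_finite_image (f := A) (hfin.subset ?_) hA.injective.injOn
      rintro _ ⟨n, ⟨hn, hnU⟩, rfl⟩
      exact ⟨hnU, fun h => hy1 (hA.antitone hn h)⟩
    refine ((Set.Ici_infinite (1 : ℤ)).sdiff h1).mono ?_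
    rintro n ⟨hn, hn'⟩ h
    exact hn' ⟨hn, h⟩

theorem p_mov (h8 : S_ori) (h10 : S_pt) : S_mov := by
  classical
  intro G V _ _ M hM hG C hC h k hk
  let _ := actTV hG
  intro x hr
  have hAM : ∀ n : ℤ, k ^ n • C ∈ M := fun n => hG _ C hC
  have hA : StrictAnti fun n : ℤ => k ^ n • C := by
    refine strictAnti_int_of_succ_lt fun n => ?_
    rw [zpow_add_one, mul_smul]
    exact ⟨Set.smul_set_subset_smul_set_iff.2 hk.1,
      fun h' => hk.2 (Set.smul_set_subset_smul_set_iff.1 h')⟩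
  obtain ⟨y, hy, hyk⟩ := Set.exists_of_ssubset hk
  -- the set `L`
  have h01 : ∀ (D : Set V) (z : TV M), pt M D z = 1 ∨ pt M D z = 0 := by
    intro D z
    rcases z with U | e
    · change (if D ∈ U.1 then (1 : ℤ) else 0) = 1 ∨ (if D ∈ U.1 then (1 : ℤ) else 0) = 0
      split_ifs <;> simp
    · change (if (D ∉ e.1 ∧ ∃ E ∈ e.1, E ⊆ D) then (1 : ℤ) else 0) = 1 ∨
        (if (D ∉ e.1 ∧ ∃ E ∈ e.1, E ⊆ D) then (1 : ℤ) else 0) = 0
      split_ifs <;> simp
  have hinl : ∀ U : {U : Set (Set V) // Ori M U},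
      {n : ℤ | pt M (k ^ n • C) (Sum.inl U) = 1}.Infinite ∧
      {n : ℤ | pt M (k ^ n • C) (Sum.inl U) = 0}.Infinite := by
    intro U
    have hy0 : y ∈ k ^ (0 : ℤ) • C := by rw [zpow_zero, one_smul]; exact hy
    have hy1 : y ∉ k ^ (1 : ℤ) • C := by rw [zpow_one]; exact hyk
    obtain ⟨h1, h2⟩ := mov_inf (M := M) (fun n : ℤ => k ^ n • C) hA hAM y hy0 hy1 U.2
    constructor
    · refine h1.mono fun n hn => ?_
      change (if k ^ n • C ∈ U.1 then (1 : ℤ) else 0) = 1
      exact if_pos hn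
    · refine h2.mono fun n hn => ?_
      change (if k ^ n • C ∈ U.1 then (1 : ℤ) else 0) = 0
      exact if_neg hn
  have hall : {n : ℤ | pt M (k ^ n • C) x = 1}.Infinite ∧
      {n : ℤ | pt M (k ^ n • C) x = 0}.Infinite := by
    rcases x with U | e
    · exact hinl U
    · obtain ⟨D, hDM, he⟩ := e.2
      obtain ⟨g1, g2, g3⟩ := h8 V M hM D hDM
      have hadj : (TG M).Adj (Sum.inl ⟨UC M D, g1⟩) (Sum.inr e) := by
        refine ⟨D, ?_, g2⟩
        rw [he]
        exact Or.inl rfl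
      have hfin : {n : ℤ | pt M (k ^ n • C) (Sum.inl ⟨UC M D, g1⟩) ≠
          pt M (k ^ n • C) (Sum.inr e)}.Finite := by
        refine Set.Finite.subset (((Set.finite_singleton D).insert Dᶜ).preimage
          hA.injective.injOn) ?_
        intro n hn
        have hgC := hAM n
        have hori := (h8 V M hM _ hgC).1
        have h3 := (h10 V M hM _ hgC hori).2.2 _ _ hadj hn
        have h4 : e.1 = {k ^ n • C, (k ^ n • C)ᶜ} := by
          rcases h3 with ⟨-, h3⟩ | ⟨h3, -⟩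
          · exact congrArg Subtype.val (Sum.inr_injective h3)
          · exact absurd h3 Sum.inl_ne_inr
        have h5 : k ^ n • C ∈ e.1 := by rw [h4]; exact Or.inl rfl
        rw [he] at h5
        rcases h5 with h5 | h5
        · exact Or.inr h5
        · exact Or.inl h5
      obtain ⟨i1, i2⟩ := hinl ⟨UC M D, g1⟩
      constructor
      · refine (i1.sdiff hfin).mono ?_
        rintro n ⟨hn, hn'⟩
        have h3 : pt M (k ^ n • C) (Sum.inl ⟨UC M D, g1⟩) = pt M (k ^ n • C) (Sum.inr e) :=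
          not_not.1 hn'
        exact h3.symm.trans hn
      · refine (i2.sdiff hfin).mono ?_
        rintro n ⟨hn, hn'⟩
        have h3 : pt M (k ^ n • C) (Sum.inl ⟨UC M D, g1⟩) = pt M (k ^ n • C) (Sum.inr e) :=
          not_not.1 hn'
        exact h3.symm.trans hn
  -- invariance
  have hstep : ∀ n : ℤ, pt M (k ^ (n + 1) • C) x = pt M (k ^ n • C) x := by
    intro n
    have h1 : pt M (k ^ (n + 1) • C) (k • x) = pt M (k ^ (n + 1) • C) x :=
      mov_rch h8 h10 hM hG hC h (k ^ (n + 1)) (k • x) x hr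
    have h2 : k ^ (n + 1) • C = k • (k ^ n • C) := by
      rw [add_comm, zpow_add, zpow_one, mul_smul]
    have h3 : pt M (k • (k ^ n • C)) (k • x) = pt M (k ^ n • C) x := mov_pt hG k _ x
    rw [← h1, h2, h3]
  have hconst : ∀ n : ℤ, pt M (k ^ n • C) x = pt M (k ^ (0 : ℤ) • C) x := by
    intro n
    induction n using Int.induction_on with
    | zero => rfl
    | succ i ih => rw [hstep, ih]
    | pred i ih =>
      rw [← ih]
      have := hstep (-(i : ℤ) - 1)
      rw [sub_add_cancel] at this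
      exact this.symm
  obtain ⟨n, hn⟩ := hall.1.nonempty
  obtain ⟨m, hm⟩ := hall.2.nonempty
  have h1 : pt M (k ^ n • C) x = 1 := hn
  have h2 : pt M (k ^ m • C) x = 0 := hm
  rw [hconst] at h1 h2
  rw [h1] at h2
  exact one_ne_zero h2

end Pool.Agent.VFS
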