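import Pool.Agent.Lib.MP_305fdd_al.VF.S.Stm

/-!
# MP_305fdd_al, project VF, section S: piece [VF S7], the nested family of minimal cuts
-/

set_option autoImplicit false

namespace Pool.Agent.VFS

open Pointwise

private theorem nest_symm {V : Type} {C D : Set V} (h : Nest C D) : Nest D C := by
  unfold Nest at *
  rcases h with h | h | h | h
  · exact Or.inr (Or.inr (Or.inr (Set.compl_subset_compl.2 h)))
  · exact Or.inr (Or.inl (Set.subset_compl_comm.1 h))
  · exact Or.inr (Or.inr (Or.inl (Set.compl_subset_comm.1 h)))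
  · exact Or.inl (Set.compl_subset_compl.1 h)

private theorem nest_compl_left {V : Type} {C E : Set V} : Nest Cᶜ E ↔ Nest C E := by
  unfold Nest
  rw [compl_compl]
  tauto

private theorem nest_compl_right {V : Type} {C E : Set V} : Nest C Eᶜ ↔ Nest C E := by
  unfold Nest
  rw [compl_compl]
  tauto

section compl

variable {V : Type} {X : SimpleGraph V}

private theorem nest_cut_compl (h1 : S_bd) {C : Set V} (hC : Cut X C) :
    Cut X Cᶜ ∧ (bd X Cᶜ).ncard = (bd X C).ncard := by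
  obtain ⟨c1, c2, c3⟩ := hC
  have e := (h1 V X).1 C
  refine ⟨⟨c2, by rwa [compl_compl], ?_⟩, ?_⟩
  · rw [e]
    exact c3.image _
  · rw [e]
    exact Set.ncard_image_of_injective _ Prod.swap_injective

private theorem nest_mc_compl (h1 : S_bd) {C : Set V} (hC : MC X C) : MC X Cᶜ := by
  obtain ⟨c1, c2⟩ := nest_cut_compl h1 hC.1
  refine ⟨c1, fun D hD => ?_⟩
  rw [c2]
  exact hC.2 D hD

private theorem nest_cr_compl (C : Set V) : cr X Cᶜ = cr X C := by
  ext D
  unfold cr
  simp only [Set.mem_setOf_eq, nest_compl_left]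

end compl

section smul

variable {V : Type} {X : SimpleGraph V} {G : Type} [Group G] [MulAction G V]

private theorem nest_bd_smul (hadj : ∀ (g : G) (x y : V), X.Adj x y → X.Adj (g • x) (g • y))
    (g : G) (C : Set V) : bd X (g • C) = (fun p : V × V => (g • p.1, g • p.2)) '' bd X C := by
  ext ⟨x, y⟩
  constructor
  · rintro ⟨h, hx, hy⟩
    refine ⟨(g⁻¹ • x, g⁻¹ • y), ⟨hadj g⁻¹ x y h, ?_, ?_⟩, ?_⟩
    · exact Set.mem_smul_set_iff_inv_smul_mem.1 hx
    · intro h'
      exact hy (Set.mem_smul_set_iff_inv_smul_mem.2 h')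
    · simp
  · rintro ⟨⟨a, b⟩, ⟨h, hx, hy⟩, he⟩
    simp only [Prod.mk.injEq] at he
    obtain ⟨rfl, rfl⟩ := he
    refine ⟨hadj g a b h, Set.smul_mem_smul_set hx, ?_⟩
    intro h'
    exact hy (Set.smul_mem_smul_set_iff.1 h')

private theorem nest_cut_smul (hadj : ∀ (g : G) (x y : V), X.Adj x y → X.Adj (g • x) (g • y))
    (g : G) {C : Set V} (hC : Cut X C) :
    Cut X (g • C) ∧ (bd X (g • C)).ncard = (bd X C).ncard := by
  obtain ⟨c1, c2, c3⟩ := hC
  have e := nest_bd_smul hadj g C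
  have hinj : Function.Injective (fun p : V × V => (g • p.1, g • p.2)) := by
    rintro ⟨a, b⟩ ⟨c, d⟩ h
    simp only [Prod.mk.injEq, smul_left_cancel_iff] at h
    exact Prod.ext h.1 h.2
  refine ⟨⟨?_, ?_, ?_⟩, ?_⟩
  · exact c1.image (MulAction.injective g).injOn
  · rw [← Set.smul_set_compl]
    exact c2.image (MulAction.injective g).injOn
  · rw [e]
    exact c3.image _
  · rw [e]
    exact Set.ncard_image_of_injective _ hinj

private theorem nest_mc_smul (hadj : ∀ (g : G) (x y : V), X.Adj x y → X.Adj (g • x) (g • y))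
    (g : G) {C : Set V} (hC : MC X C) : MC X (g • C) := by
  obtain ⟨c1, c2⟩ := nest_cut_smul hadj g hC.1
  refine ⟨c1, fun D hD => ?_⟩
  rw [c2]
  exact hC.2 D hD

private theorem nest_cr_smul (hadj : ∀ (g : G) (x y : V), X.Adj x y → X.Adj (g • x) (g • y))
    (g : G) (C : Set V) : cr X (g • C) = (fun D : Set V => g • D) '' cr X C := by
  ext D
  constructor
  · rintro ⟨hD, hn⟩
    refine ⟨g⁻¹ • D, ⟨nest_mc_smul hadj g⁻¹ hD, fun h => hn ?_⟩, smul_inv_smul g D⟩
    have := nest_smul g h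
    rwa [smul_inv_smul] at this
  · rintro ⟨E, ⟨hE, hn⟩, rfl⟩
    refine ⟨nest_mc_smul hadj g hE, fun h => hn ?_⟩
    have := nest_smul g⁻¹ h
    simpa only [inv_smul_smul] using this

private theorem nest_cr_smul_ncard
    (hadj : ∀ (g : G) (x y : V), X.Adj x y → X.Adj (g • x) (g • y))
    (g : G) (C : Set V) : (cr X (g • C)).ncard = (cr X C).ncard := by
  rw [nest_cr_smul hadj g C]
  exact Set.ncard_image_of_injective _ (MulAction.injective g)

end smul

theorem p_nest (h1 : S_bd) (h4 : S_sep) (h6 : S_ineq) : S_nest := by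
  intro V X hX hcut
  classical
  -- a minimal cut
  obtain ⟨C₀, hC₀, hmin₀⟩ : ∃ C, Cut X C ∧ ∀ D, Cut X D → (bd X C).ncard ≤ (bd X D).ncard := by
    have hex : ∃ n, ∃ C, Cut X C ∧ (bd X C).ncard = n := by
      obtain ⟨C, hC⟩ := hcut
      exact ⟨_, C, hC, rfl⟩
    obtain ⟨C, hC, hn⟩ := Nat.find_spec hex
    refine ⟨C, hC, fun D hD => ?_⟩
    rw [hn]
    exact Nat.find_min' hex ⟨D, hD, rfl⟩
  -- a minimal cut with the least number of crossings
  obtain ⟨C₁, hC₁, hmin₁⟩ : ∃ C, MC X C ∧ ∀ D, MC X D → (cr X C).ncard ≤ (cr X D).ncard := by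
    have hex : ∃ n, ∃ C, MC X C ∧ (cr X C).ncard = n := ⟨_, C₀, ⟨hC₀, hmin₀⟩, rfl⟩
    obtain ⟨C, hC, hn⟩ := Nat.find_spec hex
    refine ⟨C, hC, fun D hD => ?_⟩
    rw [hn]
    exact Nat.find_min' hex ⟨D, hD, rfl⟩
  refine ⟨{C | MC X C ∧ ∀ D, MC X D → (cr X C).ncard ≤ (cr X D).ncard}, ⟨C₁, hC₁, hmin₁⟩,
    fun C hC => hC.1, ⟨?_, ?_, ?_, ?_⟩, ?_⟩
  · intro C hC
    exact hC.1.1.1.nonempty
  · intro C hC
    refine ⟨nest_mc_compl h1 hC.1, fun D hD => ?_⟩
    rw [nest_cr_compl]
    exact hC.2 D hD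
  · intro C hC D hD
    by_contra hn
    by_cases hbig : (C ∩ D).Infinite ∧ ((C ∪ D)ᶜ).Infinite
    · obtain ⟨m1, m2, hlt⟩ := h6 V X hX C D hC.1 hD.1 hn hbig.1 hbig.2
      have a1 := hC.2 _ m1
      have a2 := hD.2 _ m2
      omega
    · have hD' := nest_mc_compl h1 hD.1
      have hn' : ¬ Nest C Dᶜ := fun h => hn (nest_compl_right.1 h)
      have hC1 : C.Infinite := hC.1.1.1
      have hC2 : (Cᶜ).Infinite := hC.1.1.2.1
      have hD1 : D.Infinite := hD.1.1.1
      have hD2 : (Dᶜ).Infinite := hD.1.1.2.1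
      have hboth : (C ∩ Dᶜ).Infinite ∧ ((C ∪ Dᶜ)ᶜ).Infinite := by
        rw [Set.compl_union, compl_compl]
        rw [not_and_or, Set.not_infinite, Set.not_infinite] at hbig
        rcases hbig with hfin | hfin
        · refine ⟨fun hf => hC1 ?_, fun hf => hD1 ?_⟩
          · refine (hfin.union hf).subset ?_
            intro x hx
            by_cases hxD : x ∈ D
            · exact Or.inl ⟨hx, hxD⟩
            · exact Or.inr ⟨hx, hxD⟩
          · refine (hfin.union hf).subset ?_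
            intro x hx
            by_cases hxC : x ∈ C
            · exact Or.inl ⟨hxC, hx⟩
            · exact Or.inr ⟨hxC, hx⟩
        · rw [Set.compl_union] at hfin
          refine ⟨fun hf => hD2 ?_, fun hf => hC2 ?_⟩
          · refine (hfin.union hf).subset ?_
            intro x hx
            by_cases hxC : x ∈ C
            · exact Or.inr ⟨hxC, hx⟩
            · exact Or.inl ⟨hxC, hx⟩
          · refine (hfin.union hf).subset ?_
            intro x hx
            by_cases hxD : x ∈ D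
            · exact Or.inr ⟨hx, hxD⟩
            · exact Or.inl ⟨hx, hxD⟩
      obtain ⟨m1, m2, hlt⟩ := h6 V X hX C Dᶜ hC.1 hD' hn' hboth.1 hboth.2
      rw [nest_cr_compl] at hlt
      have a1 := hC.2 _ m1
      have a2 := hD.2 _ m2
      omega
  · intro x y
    refine (h4 V X hX x y).subset ?_
    rintro C ⟨hC, hx, hy⟩
    exact ⟨hC.1, hx, hy⟩
  · intro G _ _ hadj g C hC
    refine ⟨nest_mc_smul hadj g hC.1, fun D hD => ?_⟩
    rw [nest_cr_smul_ncard hadj]
    exact hC.2 D hD

end Pool.Agent.VFS
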