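import Pool.Agent.Lib.MP_305fdd_al.VF.S.Stm


/-!
# MP_305fdd_al, VF S8: the orientation of an edge of the nested family
-/

set_option autoImplicit false

namespace Pool.Agent.VFS

theorem p_ori : S_ori := by
  intro V M hM C hC
  have hne := hM.ne C hC
  have hne' : (Cᶜ).Nonempty := hM.ne _ (hM.compl C hC)
  have hori : Ori M (UC M C) := by
    refine ⟨fun D hD => hD.1, ?_, ?_, ?_⟩
    · intro D hD
      have hDc := hM.compl D hD
      constructor
      · rintro ⟨-, h1⟩ ⟨-, h2⟩
        obtain ⟨x, hx⟩ := hne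
        obtain ⟨y, hy⟩ := hne'
        rcases h1 with h1 | ⟨h1, h1'⟩ <;> rcases h2 with h2 | ⟨h2, h2'⟩
        · exact h2 hx (h1 hx)
        · apply h2'
          rw [Set.Subset.antisymm h1 (Set.compl_subset_compl.1 h2)]
        · apply h1'
          have : D ⊆ Cᶜ := fun z hz hz' => h2 hz' hz
          exact Set.Subset.antisymm this h1
        · exact h2 hy (h1 hy)
      · intro h
        rcases hM.nest C hC D hD with h1 | h1 | h1 | h1
        · exact ⟨hD, Or.inl h1⟩
        · exact absurd ⟨hDc, Or.inl h1⟩ h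
        · by_cases h2 : D = Cᶜ
          · exfalso
            apply h
            refine ⟨hDc, Or.inl ?_⟩
            rw [h2, compl_compl]
          · exact ⟨hD, Or.inr ⟨h1, h2⟩⟩
        · by_cases h2 : Dᶜ = Cᶜ
          · rw [compl_inj_iff] at h2
            exact ⟨hD, Or.inl (le_of_eq h2.symm)⟩
          · exact absurd ⟨hDc, Or.inr ⟨h1, h2⟩⟩ h
    · rintro D ⟨hD, h⟩ E hE hDE
      refine ⟨hE, ?_⟩
      rcases h with h | ⟨h, h'⟩
      · exact Or.inl (h.trans hDE)
      · refine Or.inr ⟨h.trans hDE, ?_⟩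
        rintro rfl
        exact h' (Set.Subset.antisymm hDE h)
    · intro x
      by_cases hx : x ∈ C
      · obtain ⟨y, hy⟩ := hne'
        refine (hM.fin y x).subset ?_
        rintro D ⟨⟨hD, h⟩, hxD⟩
        rcases h with h | ⟨h, -⟩
        · exact absurd (h hx) hxD
        · exact ⟨hD, h hy, hxD⟩
      · obtain ⟨y, hy⟩ := hne
        refine (hM.fin y x).subset ?_
        rintro D ⟨⟨hD, h⟩, hxD⟩
        rcases h with h | ⟨h, -⟩
        · exact ⟨hD, h hy, hxD⟩
        · exact absurd (h hx) hxD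
  refine ⟨hori, ⟨⟨hC, Or.inl le_rfl⟩, ?_⟩, ?_⟩
  · rintro D ⟨hD, h⟩ hDC
    rcases h with h | ⟨h, -⟩
    · exact Set.Subset.antisymm hDC h
    · obtain ⟨y, hy⟩ := hne'
      exact absurd (hDC (h hy)) hy
  · intro U hU hmin
    have hsub : U ⊆ UC M C := by
      intro D hD
      have hDM := hU.1 hD
      refine ⟨hDM, ?_⟩
      rcases hM.nest C hC D hDM with h1 | h1 | h1 | h1
      · exact Or.inl h1
      · exfalso
        exact (hU.2.1 D hDM).1 hD (hU.2.2.1 C hmin.1 _ (hM.compl D hDM) h1)
      · refine Or.inr ⟨h1, ?_⟩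
        rintro rfl
        exact (hU.2.1 C hC).1 hmin.1 hD
      · have := hmin.2 D hD (Set.compl_subset_compl.1 h1)
        exact Or.inl (le_of_eq this.symm)
    refine Set.Subset.antisymm hsub ?_
    intro D hD
    have hDM := hD.1
    rw [hU.2.1 D hDM]
    intro h
    exact (hori.2.1 D hDM).1 hD (hsub h)

end Pool.Agent.VFS
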