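import Pool.Agent.Lib.MP_305fdd_al.VF.S.Stm

/-!
# MP_305fdd_al, project VF, section S, piece S4: finitely many minimal cuts separate two points
-/

set_option autoImplicit false

namespace Pool.Agent.VFS

open Pointwise

/-- complements of minimal cuts are minimal cuts -/
private theorem sep_compl (h1 : S_bd) {V : Type} (X : SimpleGraph V) {C : Set V} (h : MC X C) :
    MC X Cᶜ := by
  obtain ⟨hb, _⟩ := h1 V X
  have hn : (bd X Cᶜ).ncard = (bd X C).ncard := by
    rw [hb C]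
    exact Set.ncard_image_of_injective _ Prod.swap_injective
  refine ⟨⟨h.1.2.1, ?_, ?_⟩, ?_⟩
  · rw [compl_compl]; exact h.1.1
  · rw [hb C]; exact h.1.2.2.image _
  · intro D hD
    rw [hn]
    exact h.2 D hD

theorem p_sep (h1 : S_bd) (h2 : S_conn) (h3 : S_tight) : S_sep := by
  intro V X hX x y
  rcases Set.eq_empty_or_nonempty {C : Set V | MC X C ∧ x ∈ C ∧ y ∉ C} with he | ⟨C₀, hC₀⟩
  · rw [he]; exact Set.finite_empty
  · obtain ⟨p⟩ := hX.preconnected x y
    have hfin : (⋃ d ∈ {d | d ∈ p.darts}, {C : Set V | Conn X C ∧ Conn X Cᶜ ∧ (bd X C).Finite ∧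
        (bd X C).ncard ≤ (bd X C₀).ncard ∧ d.fst ∈ C ∧ d.snd ∉ C}).Finite := by
      refine Set.Finite.biUnion (List.finite_toSet p.darts) ?_
      intro d _
      exact h3 _ V X hX d.fst d.snd d.adj
    refine hfin.subset ?_
    rintro C ⟨hC, hx, hy⟩
    obtain ⟨d, hd, hd1, hd2⟩ := p.exists_boundary_dart C hx hy
    rw [Set.mem_iUnion₂]
    exact ⟨d, hd, h2 V X hX C hC, h2 V X hX _ (sep_compl h1 X hC), hC.1.2.2,
      hC.2 C₀ hC₀.1.1, hd1, hd2⟩

end Pool.Agent.VFS
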