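import Pool.Agent.Lib.MP_305fdd_al.VF.S.Stm

/-!
# MP_305fdd_al, project VF, section S: piece [VF S14]
-/

set_option autoImplicit false

namespace Pool.Agent.VFS

open Pointwise

theorem p_stab : S_stab := by
  intro G _ X hX hinv C hC
  obtain ⟨hC1, hC2, hC3⟩ := hC
  obtain ⟨c, hc⟩ := hC1.nonempty
  obtain ⟨d, hd⟩ := hC2.nonempty
  obtain ⟨w⟩ := hX.preconnected c d
  obtain ⟨e, -, he1, he2⟩ := w.exists_boundary_dart C hc hd
  have hinj : Function.Injective (fun g : G => (g * e.fst, g * e.snd)) := by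
    intro g h hgh
    exact mul_right_cancel (congrArg Prod.fst hgh)
  refine (hC3.preimage hinj.injOn).subset ?_
  intro g hg
  have hg' : g • C = C := hg
  refine ⟨hinv g _ _ e.adj, ?_, ?_⟩
  · have : g • e.fst ∈ g • C := Set.smul_mem_smul_set he1
    rwa [hg'] at this
  · intro h
    have h1 : g • e.snd ∈ g • C := by
      rw [hg']
      exact h
    exact he2 ((Set.smul_mem_smul_set_iff).1 h1)

end Pool.Agent.VFS
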