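import Pool.Agent.Lib.MP_305fdd_al.VF.S.Stm

/-!
# MP_305fdd_al, project VF, piece S9: the structure graph is connected
-/

set_option autoImplicit false
set_option linter.unusedVariables false

namespace Pool.Agent.VFS

section

variable {V : Type} {M : Set (Set V)}

private theorem tconn_compl {U : Set (Set V)} (hU : Ori M U) {C : Set V} (hC : C ∈ M)
    (h : C ∉ U) : Cᶜ ∈ U := by
  by_contra hcon
  exact h ((hU.2.1 C hC).2 hcon)

private theorem tconn_eq {U U' : Set (Set V)} (hU : Ori M U) (hU' : Ori M U') (h : U ⊆ U') :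
    U = U' := by
  apply Set.Subset.antisymm h
  intro D hD
  by_contra hcon
  have hDM : D ∈ M := hU'.1 hD
  have h1 : Dᶜ ∈ U := tconn_compl hU hDM hcon
  exact (hU'.2.1 D hDM).1 hD (h h1)

private theorem tconn_fin {U U' : Set (Set V)} (hU : Ori M U) (hU' : Ori M U') (x : V) :
    (U \ U').Finite := by
  refine ((hU.2.2.2 x).union ((hU'.2.2.2 x).image fun C => Cᶜ)).subset ?_
  rintro D ⟨hD, hD'⟩
  by_cases hx : x ∈ D
  · right
    refine ⟨Dᶜ, ⟨tconn_compl hU' (hU.1 hD) hD', fun h => h hx⟩, compl_compl D⟩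
  · left
    exact ⟨hD, hx⟩

private theorem tconn_reach (h8 : S_ori) (hNF : NF M) (x : V) :
    ∀ (n : ℕ) (U U' : Set (Set V)) (hU : Ori M U) (hU' : Ori M U'), (U \ U').ncard = n →
      (TG M).Reachable (Sum.inl ⟨U, hU⟩) (Sum.inl ⟨U', hU'⟩) := by
  intro n
  induction n using Nat.strong_induction_on with
  | _ n ih =>
    intro U U' hU hU' hn
    have hfin := tconn_fin hU hU' x
    rcases Set.eq_empty_or_nonempty (U \ U') with he | hne
    · have : U = U' := tconn_eq hU hU' (Set.sdiff_eq_empty.1 he)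
      subst this
      exact SimpleGraph.Reachable.refl _
    · obtain ⟨C, hCmin⟩ := hfin.exists_minimal hne
      have hC : C ∈ U \ U' := hCmin.prop
      have hCM : C ∈ M := hU.1 hC.1
      have hmin : MinIn U C := by
        refine ⟨hC.1, fun D hD hDC => ?_⟩
        have hD' : D ∉ U' := fun h => hC.2 (hU'.2.2.1 D h C hCM hDC)
        exact Set.Subset.antisymm hDC (hCmin.le_of_le ⟨hD, hD'⟩ hDC)
      have hCc : Cᶜ ∈ M := hNF.compl C hCM
      obtain ⟨o1, o2, _⟩ := h8 V M hNF Cᶜ hCc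
      have hlt : (UC M Cᶜ \ U').ncard < n := by
        rw [← hn]
        apply Set.ncard_lt_ncard _ hfin
        have hsub : UC M Cᶜ \ U' ⊆ (U \ U') \ {C} := by
          rintro D ⟨⟨hDM, hD⟩, hD'⟩
          rcases hD with hD | ⟨hD, hDne⟩
          · exfalso
            exact hD' (hU'.2.2.1 _ (tconn_compl hU' hCM hC.2) D hDM hD)
          · rw [compl_compl] at hD hDne
            exact ⟨⟨hU.2.2.1 C hC.1 D hDM hD, hD'⟩, hDne⟩
        refine ⟨fun D hD => (hsub hD).1, fun h => ?_⟩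
        exact (hsub (h hC)).2 rfl
      have h3 := ih _ hlt (UC M Cᶜ) U' o1 hU' rfl
      let e : {e : Set (Set V) // ∃ C ∈ M, e = {C, Cᶜ}} := ⟨{C, Cᶜ}, C, hCM, rfl⟩
      have a1 : (TG M).Adj (Sum.inl ⟨U, hU⟩) (Sum.inr e) :=
        ⟨C, Set.mem_insert _ _, hmin⟩
      have a2 : (TG M).Adj (Sum.inr e) (Sum.inl ⟨UC M Cᶜ, o1⟩) :=
        ⟨Cᶜ, Set.mem_insert_of_mem _ rfl, o2⟩
      exact (a1.reachable.trans a2.reachable).trans h3

end

theorem p_tconn (h8 : S_ori) : S_tconn := by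
  intro V M hMne hNF
  obtain ⟨C0, hC0⟩ := hMne
  obtain ⟨x, hx⟩ := hNF.ne C0 hC0
  have key : ∀ a : TV M, ∃ U : {U : Set (Set V) // Ori M U},
      (TG M).Reachable a (Sum.inl U) := by
    rintro (U | ⟨e, C, hC, he⟩)
    · exact ⟨U, SimpleGraph.Reachable.refl _⟩
    · obtain ⟨o1, o2, _⟩ := h8 V M hNF C hC
      refine ⟨⟨UC M C, o1⟩, ?_⟩
      have a1 : (TG M).Adj (Sum.inr ⟨e, C, hC, he⟩) (Sum.inl ⟨UC M C, o1⟩) := by
        refine ⟨C, ?_, o2⟩
        change C ∈ e
        rw [he]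
        exact Set.mem_insert _ _
      exact a1.reachable
  have hne : Nonempty (TV M) := ⟨Sum.inr ⟨{C0, C0ᶜ}, C0, hC0, rfl⟩⟩
  refine { preconnected := ?_, nonempty := hne }
  intro a b
  obtain ⟨U, hU⟩ := key a
  obtain ⟨U', hU'⟩ := key b
  exact (hU.trans (tconn_reach h8 hNF x _ U.1 U'.1 U.2 U'.2 rfl)).trans hU'.symm

end Pool.Agent.VFS
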