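import Pool.Agent.Lib.MP_305fdd_al.VF.S.Stm

/-!
# MP_305fdd_al, project VF, [VF S3]: finitely many connected cuts with at most `k` edges
separate the end points of an edge
-/

set_option autoImplicit false

namespace Pool.Agent.VFS

private theorem tight_conn_reach {V : Type} {X : SimpleGraph V} {C : Set V} (hC : Conn X C) {a : V}
    (ha : a ∈ C) : ∀ x ∈ C, X.Reachable a x := by
  by_contra hno
  push Not at hno
  obtain ⟨x, hx, hxn⟩ := hno
  obtain ⟨u, hu, v, hv, huv⟩ := hC {y | y ∈ C ∧ X.Reachable a y} (fun y hy => hy.1)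
    ⟨a, ha, SimpleGraph.Reachable.refl a⟩ ⟨x, hx, fun h => hxn h.2⟩
  exact hv.2 ⟨hv.1, hu.2.trans huv.reachable⟩

private theorem tight_sym2 {V : Type} {a b u v : V} (h : s(u, v) = s(a, b)) :
    (u = a ∧ v = b) ∨ (u = b ∧ v = a) := by
  simpa using h

theorem p_tight : S_tight := by
  intro k
  induction k with
  | zero =>
    intro V X hX a b hab
    refine (Set.finite_empty (α := Set V)).subset ?_
    rintro C ⟨-, -, hfin, hk, ha, hb⟩
    have h0 : (bd X C).ncard = 0 := Nat.le_zero.1 hk
    rw [Set.ncard_eq_zero hfin] at h0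
    have : (a, b) ∈ bd X C := ⟨hab, ha, hb⟩
    rw [h0] at this
    exact this
  | succ k ih =>
    intro V X hX a b hab
    set X' := X.deleteEdges {s(a, b)} with hX'
    have hadj : ∀ u v, X'.Adj u v ↔ X.Adj u v ∧ s(u, v) ≠ s(a, b) := by
      intro u v
      rw [hX', SimpleGraph.deleteEdges_adj]
      simp only [Set.mem_singleton_iff, ne_eq]
    have hc1 : ∀ C : Set V, Conn X C → b ∉ C → Conn X' C := by
      intro C hC hb D hDC hD hCD
      obtain ⟨u, hu, v, hv, huv⟩ := hC D hDC hD hCD
      refine ⟨u, hu, v, hv, (hadj u v).2 ⟨huv, fun h => ?_⟩⟩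
      rcases tight_sym2 h with ⟨h1, h2⟩ | ⟨h1, h2⟩
      · exact hb (h2 ▸ hv.1)
      · exact hb (h1 ▸ hDC hu)
    have hc2 : ∀ C : Set V, Conn X C → a ∉ C → Conn X' C := by
      intro C hC hb D hDC hD hCD
      obtain ⟨u, hu, v, hv, huv⟩ := hC D hDC hD hCD
      refine ⟨u, hu, v, hv, (hadj u v).2 ⟨huv, fun h => ?_⟩⟩
      rcases tight_sym2 h with ⟨h1, h2⟩ | ⟨h1, h2⟩
      · exact hb (h1 ▸ hDC hu)
      · exact hb (h2 ▸ hv.1)
    by_cases hr : X'.Reachable a b
    · -- the edge is not a bridge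
      have hXr : ∀ u v, X.Adj u v → X'.Reachable u v := by
        intro u v huv
        by_cases h : s(u, v) = s(a, b)
        · rcases tight_sym2 h with ⟨rfl, rfl⟩ | ⟨rfl, rfl⟩
          · exact hr
          · exact hr.symm
        · exact ((hadj u v).2 ⟨huv, h⟩).reachable
      have hXr2 : ∀ u v, X.Walk u v → X'.Reachable u v := by
        intro u v p
        induction p with
        | nil => exact SimpleGraph.Reachable.refl _
        | cons h p ih => exact (hXr _ _ h).trans ih
      have hX'c : X'.Connected := by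
        haveI := hX.nonempty
        exact ⟨fun u v => (hX.preconnected u v).elim fun p => hXr2 u v p⟩
      obtain ⟨p⟩ := hr
      have hfin : (⋃ d ∈ {d | d ∈ p.darts}, {C : Set V | Conn X' C ∧ Conn X' Cᶜ ∧ (bd X' C).Finite ∧
          (bd X' C).ncard ≤ k ∧ d.fst ∈ C ∧ d.snd ∉ C}).Finite :=
        Set.Finite.biUnion (List.finite_toSet p.darts) fun d _ =>
          ih V X' hX'c d.fst d.snd d.adj
      refine hfin.subset ?_
      rintro C ⟨h1, h2, hf, hk, ha, hb⟩
      obtain ⟨d, hd, hd1, hd2⟩ := p.exists_boundary_dart C ha hb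
      have hsub : bd X' C ⊆ bd X C \ {(a, b)} := by
        rintro ⟨u, v⟩ ⟨huv, hu, hv⟩
        have h3 := (hadj u v).1 huv
        refine ⟨⟨h3.1, hu, hv⟩, fun h => h3.2 ?_⟩
        have h4 : (u, v) = (a, b) := h
        rw [Prod.mk.injEq] at h4
        rw [h4.1, h4.2]
      have hmem : (a, b) ∈ bd X C := ⟨hab, ha, hb⟩
      have hcard : (bd X' C).ncard ≤ k := by
        have h5 := Set.ncard_le_ncard hsub (hf.diff)
        have h6 := Set.ncard_diff_singleton_of_mem hmem
        omega
      exact Set.mem_biUnion (show d ∈ {d | d ∈ p.darts} from hd)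
        ⟨hc1 C h1 hb, hc2 Cᶜ h2 (fun h => h ha), hf.subset (hsub.trans Set.diff_subset), hcard, hd1, hd2⟩
    · refine (Set.finite_singleton {x | X'.Reachable a x}).subset ?_
      rintro C ⟨h1, h2, -, -, ha, hb⟩
      have h3 := tight_conn_reach (hc1 C h1 hb) ha
      have h4 := tight_conn_reach (hc2 Cᶜ h2 (fun h => h ha)) (show b ∈ Cᶜ from hb)
      show C = {x | X'.Reachable a x}
      refine Set.Subset.antisymm h3 ?_
      intro x hx
      by_contra hxC
      exact hr (SimpleGraph.Reachable.trans hx (h4 x hxC).symm)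

end Pool.Agent.VFS
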