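import Pool.Agent.Lib.MP_305fdd_al.VF.S.Stm

/-!
# MP_305fdd_al, project VF, section S: translations of minimal cuts of a Cayley graph
-/

set_option autoImplicit false

namespace Pool.Agent.VFS

open Pointwise

private theorem trans_fin {G : Type} [Group G] {X : SimpleGraph G}
    (hX : ∀ g x y : G, X.Adj x y → X.Adj (g * x) (g * y)) {C : Set G} (hC : (bd X C).Finite)
    {a c : G} (w : X.Walk a c) : {g : G | g * a ∈ C ∧ g * c ∉ C}.Finite := by
  induction w with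
  | nil => 
    refine Set.Finite.subset Set.finite_empty ?_
    rintro g ⟨h1, h2⟩
    exact h2 h1
  | @cons a b c h w ih =>
    have h1 : {g : G | g * a ∈ C ∧ g * b ∉ C}.Finite := by
      refine Set.Finite.subset (hC.preimage (f := fun g : G => (g * a, g * b)) ?_) ?_
      · intro g _ g' _ hg
        exact mul_right_cancel (Prod.ext_iff.mp hg).1
      · rintro g ⟨h1, h2⟩
        exact ⟨hX g a b h, h1, h2⟩
    refine (h1.union ih).subset ?_
    rintro g ⟨h2, h3⟩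
    by_cases h4 : g * b ∈ C
    · exact Or.inr ⟨h4, h3⟩
    · exact Or.inl ⟨h2, h4⟩

private theorem trans_ne {G : Type} {X : SimpleGraph G} {C : Set G} {a c : G} (w : X.Walk a c)
    (ha : a ∈ C) (hc : c ∉ C) : (bd X C).Nonempty := by
  induction w with
  | nil => exact absurd ha hc
  | @cons a b c h w ih =>
    by_cases hb : b ∈ C
    · exact ih hb hc
    · exact ⟨(a, b), h, ha, hb⟩

/-- `N ∩ E` is infinite -/
private theorem trans_inf {G : Type} [Group G] {X : SimpleGraph G} (hc : X.Connected)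
    (hX : ∀ g x y : G, X.Adj x y → X.Adj (g * x) (g * y)) {E : Set G} (hE : (bd X E).Finite)
    (hi : E.Infinite) (N : Subgroup G) (hN : N.FiniteIndex) : {n | n ∈ N ∧ n ∈ E}.Infinite := by
  have hN' : N.normalCore.FiniteIndex := inferInstance
  have hfin : Finite (G ⧸ N.normalCore) := Subgroup.finite_quotient_of_finiteIndex
  obtain ⟨q, hq⟩ : ∃ q : G ⧸ N.normalCore, {c | c ∈ E ∧ (c : G ⧸ N.normalCore) = q}.Infinite := by
    by_contra h
    push Not at h
    refine hi ((Set.finite_iUnion h).subset ?_)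
    intro c hc
    exact Set.mem_iUnion.mpr ⟨(c : G ⧸ N.normalCore), hc, rfl⟩
  obtain ⟨t, rfl⟩ := QuotientGroup.mk_surjective q
  have h1 : {n | n ∈ N.normalCore ∧ n * t ∈ E}.Infinite := by
    intro hf
    refine hq ((hf.image fun n => n * t).subset ?_)
    rintro c ⟨hc1, hc2⟩
    refine ⟨c * t⁻¹, ⟨?_, ?_⟩, by simp⟩
    · rw [← QuotientGroup.eq_one_iff, QuotientGroup.mk_mul, hc2, QuotientGroup.mk_inv,
        mul_inv_cancel]
    · rw [inv_mul_cancel_right]
      exact hc1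
  obtain ⟨w⟩ := hc.preconnected t 1
  have h2 := trans_fin hX hE w
  refine (h1.sdiff h2).mono ?_
  rintro n ⟨⟨h3, h4⟩, h5⟩
  refine ⟨N.normalCore_le h3, ?_⟩
  by_contra h6
  exact h5 ⟨h4, by rwa [mul_one]⟩

/-- all but finitely many translates of the boundary are in `E` -/
private theorem trans_ex {G : Type} [Group G] {X : SimpleGraph G} (hc : X.Connected)
    (hX : ∀ g x y : G, X.Adj x y → X.Adj (g * x) (g * y)) {E : Set G} (hE : (bd X E).Finite)
    (hi : E.Infinite) (N : Subgroup G) (hN : N.FiniteIndex) (P : Set (G × G)) (hP : P.Finite) :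
    ∃ g ∈ N, ∀ p ∈ P, g * p.1 ∈ E ∧ g * p.2 ∈ E := by
  have h1 := trans_inf hc hX hE hi N hN
  have h2 : ∀ f : G, {g : G | g ∈ E ∧ g * f ∉ E}.Finite := by
    intro f
    obtain ⟨w⟩ := hc.preconnected 1 f
    refine (trans_fin hX hE w).subset ?_
    rintro g ⟨h3, h4⟩
    exact ⟨by rwa [mul_one], h4⟩
  have h3 : (⋃ p ∈ P, ({g : G | g ∈ E ∧ g * p.1 ∉ E} ∪ {g : G | g ∈ E ∧ g * p.2 ∉ E})).Finite :=
    hP.biUnion fun p _ => (h2 p.1).union (h2 p.2)
  obtain ⟨g, ⟨hg1, hg2⟩, hg3⟩ := (h1.sdiff h3).nonempty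
  refine ⟨g, hg1, fun p hp => ?_⟩
  by_contra h4
  refine hg3 (Set.mem_biUnion hp ?_)
  by_cases h5 : g * p.1 ∈ E
  · exact Or.inr ⟨hg2, fun h6 => h4 ⟨h5, h6⟩⟩
  · exact Or.inl ⟨hg2, h5⟩

private theorem trans_key {G : Type} [Group G] {X : SimpleGraph G}
    (hX : ∀ g x y : G, X.Adj x y → X.Adj (g * x) (g * y)) {C E : Set G}
    (hne : (bd X C).Nonempty) (hE : Conn X Eᶜ) (g : G)
    (hg : ∀ p ∈ bd X C, g * p.1 ∈ E ∧ g * p.2 ∈ E) : g • C ⊂ E ∨ (g • C)ᶜ ⊂ E := by
  have hm : ∀ x, x ∈ g • C ↔ g⁻¹ * x ∈ C := fun x => by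
    rw [Set.mem_smul_set_iff_inv_smul_mem, smul_eq_mul]
  obtain ⟨⟨x, y⟩, hxy⟩ := hne
  have hx1 := (hg _ hxy).1
  have hy1 := (hg _ hxy).2
  have hx2 : g * x ∈ g • C := by rw [hm, inv_mul_cancel_left]; exact hxy.2.1
  have hy2 : g * y ∉ g • C := by rw [hm, inv_mul_cancel_left]; exact hxy.2.2
  by_cases h1 : (Eᶜ ∩ g • C).Nonempty
  · by_cases h2 : (Eᶜ \ (Eᶜ ∩ g • C)).Nonempty
    · exfalso
      obtain ⟨a, ha, b, hb, hab⟩ := hE _ Set.inter_subset_left h1 h2
      have hb2 : b ∉ g • C := fun h => hb.2 ⟨hb.1, h⟩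
      have h3 : (g⁻¹ * a, g⁻¹ * b) ∈ bd X C :=
        ⟨hX g⁻¹ a b hab, (hm a).mp ha.2, fun h => hb2 ((hm b).mpr h)⟩
      have h4 := (hg _ h3).1
      rw [mul_inv_cancel_left] at h4
      exact ha.1 h4
    · right
      rw [Set.not_nonempty_iff_eq_empty, Set.sdiff_eq_empty] at h2
      refine ⟨fun z hz => ?_, fun h => ?_⟩
      · by_contra hzE
        exact hz (h2 hzE).2
      · exact (h hx1) hx2
  · left
    rw [Set.not_nonempty_iff_eq_empty] at h1
    refine ⟨fun z hz => ?_, fun h => hy2 (h hy1)⟩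
    by_contra hzE
    have : z ∈ Eᶜ ∩ g • C := ⟨hzE, hz⟩
    rw [h1] at this
    exact this

theorem p_trans (h1 : S_bd) (h2 : S_conn) : S_trans := by
  intro G _ X hc hX C hC N hN
  have hsw := (h1 G X).1
  have hbf : (bd X C).Finite := hC.1.2.2
  have hbf' : (bd X Cᶜ).Finite := by
    rw [hsw]
    exact hbf.image _
  have hC' : MC X Cᶜ := by
    refine ⟨⟨hC.1.2.1, by rw [compl_compl]; exact hC.1.1, hbf'⟩, fun D hD => ?_⟩
    rw [hsw, Set.ncard_image_of_injective _ Prod.swap_injective]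
    exact hC.2 D hD
  have hne : (bd X C).Nonempty := by
    obtain ⟨a, ha⟩ := hC.1.1.nonempty
    obtain ⟨b, hb⟩ := hC.1.2.1.nonempty
    obtain ⟨w⟩ := hc.preconnected a b
    exact trans_ne w ha hb
  obtain ⟨g, hgN, hg⟩ := trans_ex hc hX hbf hC.1.1 N hN (bd X C) hbf
  obtain ⟨h, hhN, hh⟩ := trans_ex hc hX hbf' hC.1.2.1 N hN (bd X C) hbf
  rcases trans_key hX hne (h2 G X hc _ hC') g hg with k1 | k1
  · exact ⟨g, hgN, k1⟩
  · rcases trans_key hX hne (by rw [compl_compl]; exact h2 G X hc _ hC) h hh with k2 | k2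
    · refine ⟨g * h, N.mul_mem hgN hhN, ?_⟩
      rw [mul_smul]
      refine lt_trans ?_ k1
      rw [← Set.smul_set_compl]
      refine ⟨Set.smul_set_mono k2.1, fun h3 => k2.2 ?_⟩
      exact Set.smul_set_subset_smul_set_iff.mp h3
    · refine ⟨h⁻¹, N.inv_mem hhN, ?_⟩
      have k3 : C ⊂ h • C := compl_lt_compl_iff_lt.mp k2
      have k4 : h⁻¹ • (h • C) = C := inv_smul_smul h C
      refine ⟨?_, fun h3 => k3.2 ?_⟩
      · have := Set.smul_set_mono (a := h⁻¹) k3.1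
        rwa [k4] at this
      · have := Set.smul_set_mono (a := h) h3
        rwa [smul_inv_smul] at this

end Pool.Agent.VFS
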