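import Pool.Agent.Lib.MP_305fdd_al.VF.S.Stm
import Pool.Agent.Lib.MP_305fdd_al.Fr.T.Pot

set_option autoImplicit false

namespace Pool.Agent.VFS

open Pointwise

theorem p_tree (h8 : S_ori) (h9 : S_tconn) (h10 : S_pt) : S_tree := by
  intro V M hne hM
  refine FrT.tree_of_pot (h9 V M hne hM) ?_
  have key : ∀ (U : {U : Set (Set V) // Ori M U})
      (e : {e : Set (Set V) // ∃ C ∈ M, e = {C, Cᶜ}}), (∃ D ∈ e.1, MinIn U.1 D) →
      ∃ f : TV M → ℤ, f (Sum.inl U) ≠ f (Sum.inr e) ∧ ∀ a b : TV M, (TG M).Adj a b → f a ≠ f b →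
        (a = Sum.inl U ∧ b = Sum.inr e) ∨ (a = Sum.inr e ∧ b = Sum.inl U) := by
    rintro ⟨U, hU⟩ ⟨e, he⟩ ⟨D, hDe, hD⟩
    have hDM : D ∈ M := hU.1 hD.1
    obtain ⟨E, hE, rfl⟩ := he
    have he' : ({E, Eᶜ} : Set (Set V)) = {D, Dᶜ} := by
      rcases hDe with h | h
      · rw [h]
      · rw [Set.mem_singleton_iff] at h
        rw [h, compl_compl, Set.pair_comm]
    obtain ⟨h1, h2, h3⟩ := h8 V M hM D hDM
    obtain rfl : U = UC M D := h3 U hU hD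
    obtain ⟨k1, k2, k3⟩ := h10 V M hM D hDM hU
    have e1 : (Sum.inr ⟨{E, Eᶜ}, ⟨E, hE, rfl⟩⟩ : TV M) = Sum.inr ⟨{D, Dᶜ}, D, hDM, rfl⟩ :=
      congrArg Sum.inr (Subtype.ext he')
    refine ⟨pt M D, ?_, ?_⟩
    · change pt M D (Sum.inl ⟨UC M D, hU⟩) ≠ pt M D (Sum.inr ⟨{E, Eᶜ}, ⟨E, hE, rfl⟩⟩ : TV M)
      rw [e1, k1, k2]
      exact one_ne_zero
    · intro a b hab hne
      have := k3 a b hab hne
      rw [← e1] at this
      exact this
  intro u v huv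
  rcases u with U | e <;> rcases v with U' | e'
  · exact huv.elim
  · exact key U e' huv
  · obtain ⟨f, hf, hf'⟩ := key U' e huv
    exact ⟨f, hf.symm, fun a b hab hne => (hf' a b hab hne).symm⟩
  · exact huv.elim

end Pool.Agent.VFS
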