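import Pool.Agent.Lib.MP_305fdd_al.VF.S.Asm
import Pool.Agent.Lib.MP_305fdd_al.VF.S.p_bd
import Pool.Agent.Lib.MP_305fdd_al.VF.S.p_conn
import Pool.Agent.Lib.MP_305fdd_al.VF.S.p_tight
import Pool.Agent.Lib.MP_305fdd_al.VF.S.p_sep
import Pool.Agent.Lib.MP_305fdd_al.VF.S.p_cross
import Pool.Agent.Lib.MP_305fdd_al.VF.S.p_ineq
import Pool.Agent.Lib.MP_305fdd_al.VF.S.p_nest
import Pool.Agent.Lib.MP_305fdd_al.VF.S.p_ori
import Pool.Agent.Lib.MP_305fdd_al.VF.S.p_tconn
import Pool.Agent.Lib.MP_305fdd_al.VF.S.p_pt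
import Pool.Agent.Lib.MP_305fdd_al.VF.S.p_tree
import Pool.Agent.Lib.MP_305fdd_al.VF.S.p_mov
import Pool.Agent.Lib.MP_305fdd_al.VF.S.p_trans
import Pool.Agent.Lib.MP_305fdd_al.VF.S.p_stab
import Pool.Agent.Lib.MP_305fdd_al.VF.S.p_free
import Pool.Agent.Lib.MP_305fdd_al.VF.S.p_ai
import Pool.Agent.Lib.MP_305fdd_al.VF.S.p_cay

/-!
# MP_305fdd_al, project VF, section S: Stallings' theorem for virtually free groups
-/

set_option autoImplicit false

namespace Pool.Agent.VFS

/-- A group with a normal free subgroup of finite index and of positive finite rank acts on a tree,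
with a finite stabiliser of an edge which is not inverted, and an element of the free subgroup moves
every component of the complement of the orbit of the edge. -/
theorem p_S : VF.S_S :=
  have h4 : S_sep := p_sep p_bd p_conn p_tight
  have h5 : S_cross := p_cross p_bd p_conn h4
  have h6 : S_ineq := p_ineq p_bd h5
  have h7 : S_nest := p_nest p_bd h4 h6
  have h9 : S_tconn := p_tconn p_ori
  have h10 : S_pt := p_pt p_ori
  s_of h7 p_ori (p_tree p_ori h9 h10) (p_mov p_ori h10) (p_trans p_bd p_conn) p_stab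
    (p_ai p_free) p_cay

end Pool.Agent.VFS
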