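import Pool.Agent.Lib.MP_305fdd_al.VF.S.Stm

/-!
# MP_305fdd_al, project VF, section S: assembly
-/

set_option autoImplicit false
set_option linter.unusedVariables false

namespace Pool.Agent.VFS

open Pointwise Pool.Agent.VF

theorem tadj_smul {G V : Type} [Group G] [MulAction G V] {M : Set (Set V)}
    (hM : ∀ (g : G), ∀ C ∈ M, g • C ∈ M) (g : G) (x y : TV M) (h : (TG M).Adj x y) :
    letI := actTV hM
    (TG M).Adj (g • x) (g • y) := by
  letI := actTV hM
  have key : ∀ (U : {U : Set (Set V) // Ori M U})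
      (e : {e : Set (Set V) // ∃ C ∈ M, e = {C, Cᶜ}}), (∃ C ∈ e.1, MinIn U.1 C) →
      ∃ C ∈ g • e.1, MinIn (g • U.1) C := by
    rintro U e ⟨C, hC, hU, hmin⟩
    refine ⟨g • C, Set.smul_mem_smul_set hC, Set.smul_mem_smul_set hU, ?_⟩
    rintro _ ⟨D, hD, rfl⟩ hDC
    have hDC' : D ⊆ C := Set.smul_set_subset_smul_set_iff.1 hDC
    show g • D = g • C
    rw [hmin D hD hDC']
  rcases x with U | e <;> rcases y with U' | e'
  · exact h.elim
  · exact key U e' h
  · exact key U' e h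
  · exact h.elim

theorem s_of (h7 : S_nest) (h8 : S_ori) (h11 : S_tree) (h12 : S_mov) (h13 : S_trans)
    (h14 : S_stab) (h16 : S_ai) (h17 : S_cay) : S_S := by
  intro V _ N hN hfi r hr
  obtain ⟨C0, hC0⟩ := h16 V N hfi r hr
  obtain ⟨S, hconn, hact, hcut⟩ := h17 V N hfi r hr
  obtain ⟨M, hne, hMC, hNF, hG⟩ := h7 V (cay S) hconn ⟨C0, hcut C0 hC0⟩
  have hM : ∀ (g : V), ∀ C ∈ M, g • C ∈ M := hG V (fun g x y h => hact g x y h)
  obtain ⟨C, hC⟩ := hne
  obtain ⟨hori, hmin, huniq⟩ := h8 V M hNF C hC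
  obtain ⟨k, hkN, hk⟩ := h13 V (cay S) hconn hact C (hMC C hC) N hfi
  letI act := actTV hM
  refine ⟨TV M, act, TG M, Sum.inl ⟨UC M C, hori⟩, Sum.inr ⟨{C, Cᶜ}, C, hC, rfl⟩, ?_⟩
  refine ⟨h11 V M ⟨C, hC⟩ hNF, fun g x y h => tadj_smul hM g x y h, ?_, ?_, ?_, ?_⟩
  · exact ⟨C, Set.mem_insert _ _, hmin⟩
  · rintro g ⟨h, -⟩
    exact Sum.inl_ne_inr h
  · have hfin := h14 V (cay S) hconn hact C (hMC C hC).1
    refine (hfin.subset ?_ : Set.Finite _)
    rintro g ⟨h1, h2⟩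
    have e1 : g • UC M C = UC M C := congrArg Subtype.val (Sum.inl_injective h1)
    have e2 : g • ({C, Cᶜ} : Set (Set V)) = {C, Cᶜ} := congrArg Subtype.val (Sum.inr_injective h2)
    have h3 : g • C ∈ ({C, Cᶜ} : Set (Set V)) := by
      rw [← e2]
      exact Set.smul_mem_smul_set (Set.mem_insert _ _)
    rcases h3 with h3 | h3
    · exact h3
    · exfalso
      have h4 : g • C ∈ UC M C := by
        rw [← e1]
        exact Set.smul_mem_smul_set hmin.1
      rw [Set.mem_singleton_iff] at h3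
      rw [h3] at h4
      exact (hori.2.1 C hC).1 hmin.1 h4
  · exact ⟨k, hkN, h12 V V M hNF hM C hC hori k hk⟩

end Pool.Agent.VFS
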