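import Mathlib

/-!
# MP_305fdd_al, project VF, section S: Stallings' theorem for virtually free groups. Definitions.

A virtually free group which is not finite acts on a tree with finite stabiliser of an edge, without
inversion of this edge, and such that the splitting is not trivial. Proof (after Dunwoody and
Krön): minimal cuts of the Cayley graph, those with the smallest number of crossing minimal cuts are
pairwise nested, a nested family of sets is the family of edges of a tree.
-/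

set_option autoImplicit false
set_option linter.unusedVariables false

namespace Pool.Agent.VFS

open Pointwise

section cuts

variable {V : Type} (X : SimpleGraph V)

/-- the oriented edges which leave `C` -/
def bd (C : Set V) : Set (V × V) := {p | X.Adj p.1 p.2 ∧ p.1 ∈ C ∧ p.2 ∉ C}

/-- `C` is connected in `X` -/
def Conn (C : Set V) : Prop :=
  ∀ D ⊆ C, D.Nonempty → (C \ D).Nonempty → ∃ a ∈ D, ∃ b ∈ C \ D, X.Adj a b

/-- both sides are infinite, the boundary is finite -/
def Cut (C : Set V) : Prop := C.Infinite ∧ (Cᶜ).Infinite ∧ (bd X C).Finite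

/-- minimal cuts -/
def MC (C : Set V) : Prop := Cut X C ∧ ∀ D, Cut X D → (bd X C).ncard ≤ (bd X D).ncard

end cuts

/-- nested sets -/
def Nest {V : Type} (C D : Set V) : Prop := C ⊆ D ∨ C ⊆ Dᶜ ∨ Cᶜ ⊆ D ∨ Cᶜ ⊆ Dᶜ

/-- the minimal cuts which cross `C` -/
def cr {V : Type} (X : SimpleGraph V) (C : Set V) : Set (Set V) := {D | MC X D ∧ ¬ Nest C D}

/-- nested families of sets -/
structure NF {V : Type} (M : Set (Set V)) : Prop where
  ne : ∀ C ∈ M, C.Nonempty
  compl : ∀ C ∈ M, Cᶜ ∈ M
  nest : ∀ C ∈ M, ∀ D ∈ M, Nest C D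
  fin : ∀ x y, {C | C ∈ M ∧ x ∈ C ∧ y ∉ C}.Finite

section tree

variable {V : Type} (M : Set (Set V))

/-- orientations of `M`: one of `C`, `Cᶜ` is chosen for every `C`, compatibly, and for every point `x`
all but finitely many of the chosen sets contain `x` -/
def Ori (U : Set (Set V)) : Prop :=
  U ⊆ M ∧ (∀ C ∈ M, (C ∈ U ↔ Cᶜ ∉ U)) ∧ (∀ C ∈ U, ∀ D ∈ M, C ⊆ D → D ∈ U) ∧
    ∀ x, {C | C ∈ U ∧ x ∉ C}.Finite

/-- `C` is minimal in `U` -/
def MinIn (U : Set (Set V)) (C : Set V) : Prop := C ∈ U ∧ ∀ D ∈ U, D ⊆ C → D = C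

/-- the orientation pointing to `C` such that `C` is minimal -/
def UC (C : Set V) : Set (Set V) := {D | D ∈ M ∧ (C ⊆ D ∨ (Cᶜ ⊆ D ∧ D ≠ Cᶜ))}

/-- the vertices of the structure tree: orientations, and midpoints of the edges -/
def TV : Type := {U : Set (Set V) // Ori M U} ⊕ {e : Set (Set V) // ∃ C ∈ M, e = {C, Cᶜ}}

/-- adjacency in the structure tree -/
def TAdj : TV M → TV M → Prop
  | Sum.inl U, Sum.inr e => ∃ C ∈ e.1, MinIn U.1 C
  | Sum.inr e, Sum.inl U => ∃ C ∈ e.1, MinIn U.1 C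
  | _, _ => False

/-- the structure tree -/
def TG : SimpleGraph (TV M) where
  Adj := TAdj M
  symm := ⟨by
    rintro (U | e) (U' | e') h
    · exact h
    · exact h
    · exact h
    · exact h⟩
  loopless := ⟨by
    rintro (U | e) h
    · exact h
    · exact h⟩

open Classical in
/-- the potential of the edge `C` -/
noncomputable def pt (C : Set V) : TV M → ℤ
  | Sum.inl U => if C ∈ U.1 then 1 else 0
  | Sum.inr e => if C ∉ e.1 ∧ ∃ D ∈ e.1, D ⊆ C then 1 else 0

end tree

section act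

variable {G V : Type} [Group G] [MulAction G V] {M : Set (Set V)}

theorem nest_smul (g : G) {C D : Set V} (h : Nest C D) : Nest (g • C) (g • D) := by
  unfold Nest at *
  rw [← Set.smul_set_compl, ← Set.smul_set_compl]
  simpa only [Set.smul_set_subset_smul_set_iff] using h

theorem ori_smul (hM : ∀ (g : G), ∀ C ∈ M, g • C ∈ M) (g : G) {U : Set (Set V)} (hU : Ori M U) :
    Ori M (g • U) := by
  have hmem : ∀ C : Set V, C ∈ g • U ↔ g⁻¹ • C ∈ U := fun C => Set.mem_smul_set_iff_inv_smul_mem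
  have hMm : ∀ (g : G) (C : Set V), g • C ∈ M → C ∈ M := by
    intro g C h
    have := hM g⁻¹ _ h
    rwa [inv_smul_smul] at this
  refine ⟨?_, ?_, ?_, ?_⟩
  · rintro _ ⟨C, hC, rfl⟩
    exact hM g C (hU.1 hC)
  · intro C hC
    rw [hmem, hmem, Set.smul_set_compl]
    exact hU.2.1 _ (hM g⁻¹ C hC)
  · intro C hC D hD hCD
    rw [hmem] at hC ⊢
    exact hU.2.2.1 _ hC _ (hM g⁻¹ D hD) (Set.smul_set_mono hCD)
  · intro x
    have h1 := hU.2.2.2 (g⁻¹ • x)
    refine (h1.image fun C => g • C).subset ?_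
    rintro C ⟨hC, hx⟩
    refine ⟨g⁻¹ • C, ⟨(hmem C).1 hC, fun h => hx ?_⟩, smul_inv_smul g C⟩
    rwa [Set.mem_smul_set_iff_inv_smul_mem, inv_inv, smul_inv_smul] at h

theorem pe_smul (hM : ∀ (g : G), ∀ C ∈ M, g • C ∈ M) (g : G) {e : Set (Set V)}
    (he : ∃ C ∈ M, e = {C, Cᶜ}) : ∃ C ∈ M, g • e = {C, Cᶜ} := by
  obtain ⟨C, hC, rfl⟩ := he
  refine ⟨g • C, hM g C hC, ?_⟩
  rw [Set.smul_set_insert, Set.smul_set_singleton, Set.smul_set_compl]

/-- the action on the structure tree -/
@[reducible] def actTV (hM : ∀ (g : G), ∀ C ∈ M, g • C ∈ M) : MulAction G (TV M) where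
  smul g x := match x with
    | Sum.inl U => Sum.inl ⟨g • U.1, ori_smul hM g U.2⟩
    | Sum.inr e => Sum.inr ⟨g • e.1, pe_smul hM g e.2⟩
  one_smul x := by
    rcases x with U | e
    · exact congrArg Sum.inl (Subtype.ext (one_smul G U.1))
    · exact congrArg Sum.inr (Subtype.ext (one_smul G e.1))
  mul_smul g h x := by
    rcases x with U | e
    · exact congrArg Sum.inl (Subtype.ext (mul_smul g h U.1))
    · exact congrArg Sum.inr (Subtype.ext (mul_smul g h e.1))

end act

/-- the Cayley graph -/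
def cay {G : Type} [Group G] (S : Set G) : SimpleGraph G :=
  SimpleGraph.fromRel fun g h => ∃ s ∈ S, h = g * s

/-- almost invariant subsets -/
def AI {G : Type} [Group G] (C : Set G) : Prop :=
  C.Infinite ∧ (Cᶜ).Infinite ∧ ∀ g : G, {x | ¬ (x ∈ C ↔ x * g ∈ C)}.Finite

end Pool.Agent.VFS
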