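import Pool.Agent.Lib.MP_305fdd_al.VF.S.Defs
import Pool.Agent.Lib.MP_305fdd_al.VF.Defs

/-!
# MP_305fdd_al, project VF, section S: the statements, with proofs in words

Every `S_xxx` is proved in its own file as `theorem p_xxx : S_xxx`. A piece may assume the pieces named
in its docstring as hypotheses (for example `theorem p_conn (h : S_bd) : S_conn`).
-/

set_option autoImplicit false
set_option linter.unusedVariables false

namespace Pool.Agent.VFS

open Pointwise

/-! ## minimal cuts -/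

/-- **[VF S1]** Boundaries. `bd X Cᶜ` is `bd X C` with the two coordinates swapped. Submodularity:
`bd (C ∩ D) ∪ bd (C ∪ D) ⊆ bd C ∪ bd D` and `bd (C ∩ D) ∩ bd (C ∪ D) ⊆ bd C ∩ bd D` (look at
`x ∈ C ∩ D` or `x ∈ C ∪ D`, `y ∉ ..`), then `Set.ncard_union_add_ncard_inter`. -/
def S_bd : Prop := ∀ (V : Type) (X : SimpleGraph V),
  (∀ C : Set V, bd X Cᶜ = Prod.swap '' bd X C) ∧
  ∀ C D : Set V, (bd X C).Finite → (bd X D).Finite →
    (bd X (C ∩ D)).Finite ∧ (bd X (C ∪ D)).Finite ∧
    (bd X (C ∩ D)).ncard + (bd X (C ∪ D)).ncard ≤ (bd X C).ncard + (bd X D).ncard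

/-- **[VF S2]** Minimal cuts are connected. Let `D ⊆ C`, `D` and `C \ D` nonempty, no edge between
`D` and `C \ D`. Then `bd C ⊇ bd D ∪ bd (C \ D)`, a disjoint union (an edge which leaves `D` ends
outside `C`). Both parts are nonempty, because `X` is connected and `D`, `Dᶜ`, `C \ D`, `(C \ D)ᶜ`
are nonempty. `C` is infinite, so one of `D`, `C \ D` is infinite, its complement contains `Cᶜ`, so it
is a cut, with a strictly smaller boundary (`Set.ncard_lt_ncard`): contradiction to `MC`. -/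
def S_conn : Prop := ∀ (V : Type) (X : SimpleGraph V), X.Connected → ∀ C, MC X C → Conn X C

/-- **[VF S3]** Finiteness (any connected graph). Induction on `k`. `k = 0`: `(a, b) ∈ bd C`, so the
set is empty. `k + 1`: let `X' = X.deleteEdges {s(a, b)}`. Every `C` of the set is `Conn` in `X'`, and
so is `Cᶜ` (the edge `ab` joins `C` to `Cᶜ`, it is not used in `Conn`), `bd X' C ⊆ bd X C \ {(a, b)}`
has at most `k` elements. Case 1: `b` is not reachable from `a` in `X'`. Then `C` is the set of all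
points reachable from `a` in `X'`: `C ⊆` this set by `Conn X' C` (take `D` = the points of `C` reachable
from `a`), `Cᶜ ⊆` the points reachable from `b` in the same way, and these two sets are disjoint. So the
set has at most one element. Case 2: `b` is reachable from `a` in `X'`, by a walk `p`. Then `X'` is
connected (replace the edge `ab` by `p` in walks of `X`). Every `C` with `a ∈ C`, `b ∉ C` has a dart
`(x, y)` of `p` with `x ∈ C`, `y ∉ C`; so the set is contained in the union over the darts `(x, y)` of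
`p` of the sets of the induction hypothesis for `X'`, `k`, `x`, `y`. -/
def S_tight : Prop := ∀ (k : ℕ) (V : Type) (X : SimpleGraph V), X.Connected → ∀ a b, X.Adj a b →
  {C : Set V | Conn X C ∧ Conn X Cᶜ ∧ (bd X C).Finite ∧ (bd X C).ncard ≤ k ∧ a ∈ C ∧ b ∉ C}.Finite

/-- **[VF S4]** (from S_bd, S_conn, S_tight) Finitely many minimal cuts separate `x` from `y`: a walk
from `x` to `y` has a dart `(a, b)` with `a ∈ C`, `b ∉ C`; all minimal cuts have the same number of
boundary edges `k` (two minimal cuts `C`, `C'`: `≤` in both directions), `Cᶜ` is a minimal cut too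
(S_bd), `C` and `Cᶜ` are connected (S_conn): S_tight for the finitely many darts of the walk. -/
def S_sep : Prop := ∀ (V : Type) (X : SimpleGraph V), X.Connected → ∀ x y,
  {C : Set V | MC X C ∧ x ∈ C ∧ y ∉ C}.Finite

/-- **[VF S5]** (from S_bd, S_conn, S_sep) A minimal cut `C` is crossed by finitely many minimal cuts
`D`: `¬ Nest C D` says that the four corners are nonempty. `D` is connected (S_conn) and meets `C` and
`Cᶜ`, so there is `(a, b) ∈ bd X C` with `a, b ∈ D`; `Dᶜ` is a minimal cut (S_bd), connected, so there is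
`(a', b') ∈ bd X C` with `a', b' ∉ D`. So `D ∈ {D | MC X D ∧ a ∈ D ∧ a' ∉ D}`, finitely many `a`, `a'`
(first coordinates of `bd X C`). -/
def S_cross : Prop := ∀ (V : Type) (X : SimpleGraph V), X.Connected → ∀ C, MC X C → (cr X C).Finite

/-- **[VF S6]** (from S_bd, S_cross) The key inequality. `C ∩ D` and `C ∪ D` are cuts, by S_bd and
minimality both have the minimal number `k` of boundary edges, so they are minimal. Crossings:
(i) if `E` is nested with `C` and with `D`, then it is nested with `C ∩ D` (the only bad case is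
`Cᶜ ⊆ E`, `Dᶜ ⊆ Eᶜ` or conversely: then `(C ∪ D)ᶜ = ∅`) and with `C ∪ D` (bad case: `C ⊆ E`, `D ⊆ Eᶜ`
or conversely: then `C ∩ D = ∅`; for `E ⊆ ..` use complements);
(ii) if `E` is nested with `C` or with `D`, then it is nested with `C ∩ D` or with `C ∪ D`;
(iii) `E = C` is nested with `C ∩ D` and with `C ∪ D`, but `C ∈ cr X D`.
So `cr (C ∩ D) ∪ cr (C ∪ D) ⊆ (cr C ∪ cr D) \ {C}`, `cr (C ∩ D) ∩ cr (C ∪ D) ⊆ cr C ∩ cr D`,
and `Set.ncard_union_add_ncard_inter` twice (all sets finite by S_cross). -/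
def S_ineq : Prop := ∀ (V : Type) (X : SimpleGraph V), X.Connected → ∀ C D, MC X C → MC X D →
  ¬ Nest C D → (C ∩ D).Infinite → ((C ∪ D)ᶜ).Infinite →
  MC X (C ∩ D) ∧ MC X (C ∪ D) ∧
    (cr X (C ∩ D)).ncard + (cr X (C ∪ D)).ncard < (cr X C).ncard + (cr X D).ncard

/-- **[VF S7]** (from S_bd, S_sep, S_ineq) The nested family. There is a cut, so there is a minimal one
(least value of `(bd X C).ncard`). `M` := the minimal cuts `C` with the least value of
`(cr X C).ncard`. Complements: `bd X Cᶜ` has as many elements as `bd X C` (S_bd), `Nest Cᶜ D ↔ Nest C D`.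
Translates: `D ↦ g • D` is a bijection of the cuts with inverse `D ↦ g⁻¹ • D`,
`bd X (g • C) = (g, g) • bd X C`, `Nest (g • C) (g • D) ↔ Nest C D` (`nest_smul`). Nested: let `C, D ∈ M`
be not nested. If `C ∩ D` and `(C ∪ D)ᶜ` are infinite, S_ineq gives `C ∩ D` or `C ∪ D` with a smaller
number of crossings, contradiction. Otherwise `C ∩ Dᶜ` and `(C ∪ Dᶜ)ᶜ = Cᶜ ∩ D` are infinite (for
example if `C ∩ D` is finite: `C` and `D` are infinite; if `Cᶜ ∩ Dᶜ` is finite: `Cᶜ` and `Dᶜ` are
infinite), and S_ineq applies to `C`, `Dᶜ`. `NF.fin` is S_sep. -/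
def S_nest : Prop := ∀ (V : Type) (X : SimpleGraph V), X.Connected → (∃ C, Cut X C) →
  ∃ M : Set (Set V), M.Nonempty ∧ (∀ C ∈ M, MC X C) ∧ NF M ∧
    ∀ (G : Type) [Group G] [MulAction G V], (∀ (g : G) (x y : V), X.Adj x y → X.Adj (g • x) (g • y)) →
      ∀ g : G, ∀ C ∈ M, g • C ∈ M

/-! ## the structure tree -/

/-- **[VF S8]** `UC M C` is an orientation, `C` is minimal in it, and it is the only such orientation.
(a) `D ∈ M`: `D ∈ UC` or `Dᶜ ∈ UC`: by nestedness `C ⊆ D` (then `D ∈ UC`), or `C ⊆ Dᶜ` (`Dᶜ ∈ UC`), or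
`Cᶜ ⊆ D` (if `D = Cᶜ` then `Dᶜ = C ∈ UC`, otherwise `D ∈ UC`), or `Cᶜ ⊆ Dᶜ` (same with `Dᶜ`). Not both:
`C ⊆ D`, `C ⊆ Dᶜ`: `C` empty; `C ⊆ D`, `Cᶜ ⊆ Dᶜ`, `Dᶜ ≠ Cᶜ`: `D = C`; `Cᶜ ⊆ D`, `Cᶜ ⊆ Dᶜ`: `Cᶜ` empty
(`Cᶜ ∈ M` is nonempty). (b) upward closed: clear. (c) `{D ∈ UC | x ∉ D}`: if `x ∈ C`, then `Cᶜ ⊆ D`,
choose `y ∈ Cᶜ`, `NF.fin y x`; if `x ∉ C`, then `C ⊆ D`, choose `y ∈ C`. (d) `C` is minimal:
`Cᶜ ⊆ D ⊆ C` gives `Cᶜ = ∅`. (e) unique: let `U` be an orientation in which `C` is minimal, `D ∈ U`. If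
`C ⊆ Dᶜ` then `Dᶜ ∈ U`, contradiction. If `Cᶜ ⊆ Dᶜ` then `D ⊆ C`, `D = C`. If `Cᶜ ⊆ D`: `D ≠ Cᶜ`, since
`C ∈ U`. So `U ⊆ UC`, and two orientations one of which is contained in the other are equal. -/
def S_ori : Prop := ∀ (V : Type) (M : Set (Set V)), NF M → ∀ C ∈ M,
  Ori M (UC M C) ∧ MinIn (UC M C) C ∧ ∀ U, Ori M U → MinIn U C → U = UC M C

/-- **[VF S9]** (from S_ori) The structure graph is connected. Each midpoint `{C, Cᶜ}` is adjacent to
`UC M C`. Let `U`, `U'` be orientations. `U \ U'` is finite: take any `x : V` (`M` is nonempty and its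
members are nonempty); if `D ∈ U \ U'` then `Dᶜ ∈ U'`, and `x ∉ D ∈ U` or `x ∉ Dᶜ ∈ U'`. Induction on
`(U \ U').ncard`. If `U ⊆ U'` then `U = U'`. Otherwise let `C` be a minimal element (for `⊆`) of
`U \ U'`. It is minimal in `U`: if `D ∈ U`, `D ⊆ C`, then `D ∉ U'` (else `C ∈ U'`), so `D = C`. So
`U = UC M C` is adjacent to `{C, Cᶜ} = {Cᶜ, Cᶜᶜ}`, which is adjacent to `UC M Cᶜ`, and
`UC M Cᶜ \ U' ⊆ (U \ U') \ {C}`: let `D` be in the left side; if `Cᶜ ⊆ D` then `D ∈ U'` (since
`Cᶜ ∈ U'`), contradiction; so `C ⊆ D`, `D ≠ C`, and `D ∈ U` since `C ∈ U`. -/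
def S_tconn : Prop := ∀ (V : Type) (M : Set (Set V)), M.Nonempty → NF M → (TG M).Connected

/-- **[VF S10]** (from S_ori) The potential `pt M C` is `1` at `UC M C`, `0` at `{C, Cᶜ}`, and along
the edges of `TG M` it changes only along this edge. An edge is `(inl U, inr e)` (or reversed) with
`D ∈ e` minimal in `U`; then `e = {D, Dᶜ}` and `U = UC M D` (S_ori). If `C = D` it is the edge of `C`.
If `C = Dᶜ` then `C ∉ U` and `C ∈ e`: both values are `0`. If `C ∉ e`: `C ∈ UC M D ↔ D ⊆ C ∨ Dᶜ ⊆ C`: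
both values agree. -/
def S_pt : Prop := ∀ (V : Type) (M : Set (Set V)), NF M → ∀ (C : Set V) (hC : C ∈ M)
  (h : Ori M (UC M C)),
  pt M C (Sum.inl ⟨UC M C, h⟩) = 1 ∧ pt M C (Sum.inr ⟨{C, Cᶜ}, C, hC, rfl⟩) = 0 ∧
  ∀ a b : TV M, (TG M).Adj a b → pt M C a ≠ pt M C b →
    (a = Sum.inl ⟨UC M C, h⟩ ∧ b = Sum.inr ⟨{C, Cᶜ}, C, hC, rfl⟩) ∨
    (a = Sum.inr ⟨{C, Cᶜ}, C, hC, rfl⟩ ∧ b = Sum.inl ⟨UC M C, h⟩)

/-- **[VF S11]** (from S_ori, S_tconn, S_pt) The structure graph is a tree: `FrT.tree_of_pot` with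
`f = pt M C` for the edge `(UC M C, {C, Cᶜ})`; every edge has this form. -/
def S_tree : Prop := ∀ (V : Type) (M : Set (Set V)), M.Nonempty → NF M → (TG M).IsTree

/-- **[VF S12]** (from S_ori, S_pt) Movement. For `x : TV M` let `L x = {n : ℤ | pt M (k ^ n • C) x = 1}`.
(a) `pt M (g • D) (g • x) = pt M D x`; so `L (k • x) = L x + 1`.
(b) `Rch` does not change `L`: an edge `(a, b)` of `TG M` with `pt M (g • C) a ≠ pt M (g • C) b` is the
edge of `g • C` (S_pt), which is `g • (u, v)` (`g • UC M C = UC M (g • C)`), so it lies in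
`Orb G u v`; induction on the walk in `(TG M).deleteEdges (Orb G u v)`.
(c) `L x` and its complement are infinite: `n ↦ k ^ n • C` is strictly decreasing. Take
`y ∈ C`, `y ∉ k • C`. First `x = inl U`: for `n ≥ 1` we have `y ∉ k ^ n • C`, so only finitely many of
them are in `U`; for `n ≤ 0` we have `y ∈ k ^ n • C`, if it is not in `U` then `(k ^ n • C)ᶜ ∈ U` and
`y` is not in it: finitely many. If `x = inr e`, `e = {D, Dᶜ}`, then `x` is adjacent to
`inl (UC M D)` and `pt` changes along this edge for the potential of `D` only (S_pt), i.e. for at most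
one `n`.
So if `Rch (k • x) x` then `L x + 1 = L x`, so `L x` is empty or everything: contradiction. -/
def S_mov : Prop := ∀ (G V : Type) [Group G] [MulAction G V] (M : Set (Set V)), NF M →
  ∀ (hM : ∀ (g : G), ∀ C ∈ M, g • C ∈ M) (C : Set V) (hC : C ∈ M) (h : Ori M (UC M C)) (k : G),
  k • C ⊂ C → letI := actTV hM
    ∀ x : TV M, ¬ FrT.Rch G (TG M) (Sum.inl ⟨UC M C, h⟩) (Sum.inr ⟨{C, Cᶜ}, C, hC, rfl⟩) (k • x) x

/-! ## translations of minimal cuts of a Cayley graph -/

/-- **[VF S13]** (from S_bd, S_conn) Translations. Let `F` be the finite set of all end points of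
`bd X C`. (a) For all `f`: `{g ∈ C | g * f ∉ C}` is finite: take a walk from `1` to `f`; its translate by
`g` leads from `g` to `g * f`, so some dart `(x, y)` of the walk has `(g * x, g * y) ∈ bd X C`; same for
`Cᶜ`. So for all but finitely many `g ∈ C` we have `g • F ⊆ C`. (b) `N ∩ C` is infinite: `G` is a finite
union of cosets `N * t`, so `C ∩ N * t` is infinite for some `t`; if `c = n * t ∈ C` then
`n = c * t⁻¹`, and for all but finitely many of these `n ∈ C` by (a). Same for `Cᶜ`. (c) Take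
`g ∈ N ∩ C` with `g • F ⊆ C`. `Cᶜ` is connected (S_conn for the minimal cut `Cᶜ`), so
`Cᶜ ⊆ g • C` or `Cᶜ ⊆ (g • C)ᶜ`: otherwise `Conn` with `D = Cᶜ ∩ g • C` gives `(a, b) ∈ bd X (g • C)`
with `a ∈ Cᶜ`, but `a ∈ g • F ⊆ C`. So `(g • C)ᶜ ⊂ C` or `g • C ⊂ C`; strict: let `(x, y) ∈ bd X C`
(nonempty since `X` is connected), then `g * x, g * y ∈ C`, `g * x ∈ g • C`, `g * y ∉ g • C`, so
neither `g • C = C` nor `(g • C)ᶜ = C`.
(d) In the same way with `Cᶜ`: `h ∈ N ∩ Cᶜ` with `h • C ⊂ Cᶜ` or `(h • C)ᶜ ⊂ Cᶜ`.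
(e) If `g • C ⊂ C`: `k = g`. If `(h • C)ᶜ ⊂ Cᶜ`: `C ⊂ h • C`, `k = h⁻¹`. Otherwise `(g • C)ᶜ ⊂ C` and
`h • C ⊂ Cᶜ`, so `(g * h) • C ⊂ g • Cᶜ ⊂ C`, `k = g * h`. -/
def S_trans : Prop := ∀ (G : Type) [Group G] (X : SimpleGraph G), X.Connected →
  (∀ g x y : G, X.Adj x y → X.Adj (g * x) (g * y)) → ∀ C, MC X C →
  ∀ N : Subgroup G, N.FiniteIndex → ∃ k ∈ N, k • C ⊂ C

/-- **[VF S14]** The stabiliser of a cut is finite: `bd X C` is finite, and nonempty because `X` is
connected and `C`, `Cᶜ` are nonempty; let `(x, y) ∈ bd X C`. If `g • C = C` then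
`(g * x, g * y) ∈ bd X C`, and `g` is determined by `g * x`. -/
def S_stab : Prop := ∀ (G : Type) [Group G] (X : SimpleGraph G), X.Connected →
  (∀ g x y : G, X.Adj x y → X.Adj (g * x) (g * y)) → ∀ C, Cut X C → {g : G | g • C = C}.Finite

/-! ## existence of a cut -/

/-- **[VF S15]** An almost invariant subset of a free group of rank `r + 1`: `A` = the elements whose
reduced word has first letter `(0, true)`. It is infinite (`x ^ (n + 1)`), the complement is infinite
(`x⁻¹ ^ n`). The set of all `g` for which `{w | ¬ (w ∈ A ↔ w * g ∈ A)}` is finite is a subgroup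
(`{w | ¬ (w ∈ A ↔ w * g * h ∈ A)} ⊆ {w | ¬ (w ∈ A ↔ w * g ∈ A)} ∪ {w | ¬ (w * g ∈ A ↔ w * g * h ∈ A)}`),
so it is enough to consider generators `g = of j`: the first letters of `w` and `w * of j` differ only if
`w = 1` or `w * of j = 1`. (Or any other construction: for example the coefficient of `1` of the Fox
derivative with respect to the first generator, a crossed homomorphism to functions with finite
support.) -/
def S_free : Prop := ∀ r : ℕ, ∃ A : Set (FreeGroup (Fin (r + 1))), AI A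

/-- **[VF S16]** (from S_free) Almost invariant subsets of virtually free groups. Let `A ⊆ N` be almost
invariant, `V` the disjoint union of the right cosets `N * t`, `t ∈ T`, `T` finite,
`C = {n * t | n ∈ A, t ∈ T}`. Infinite with infinite complement: clear. For `g : V` and `t ∈ T` write
`t * g = n₀ * t'` with `n₀ ∈ N`, `t' ∈ T`: then `n * t * g = (n * n₀) * t'`, so `n * t ∈ C ↔ n ∈ A` and
`n * t * g ∈ C ↔ n * n₀ ∈ A`: finitely many exceptions `n` for each of the finitely many `t`. -/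
def S_ai : Prop := ∀ (V : Type) [Group V] (N : Subgroup V), N.FiniteIndex → ∀ r : ℕ,
  Nonempty (N ≃* FreeGroup (Fin (r + 1))) → ∃ C : Set V, AI C

/-- **[VF S17]** The Cayley graph of a virtually free group. `N` is finitely generated and of finite
index, so `V` is generated by a finite set `S`. `cay S` is connected (the elements reachable from `1` by
walks: closed under right multiplication with `s` and `s⁻¹`, so everything,
`Subgroup.closure_induction_right` or similar), left multiplication acts by automorphisms, and an almost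
invariant set `C` is a cut: `bd (cay S) C ⊆ ⋃_(s ∈ S) {(x, x * s) | x ∈ C, x * s ∉ C} ∪
{(x, x * s⁻¹) | ..}`, finite. -/
def S_cay : Prop := ∀ (V : Type) [Group V] (N : Subgroup V), N.FiniteIndex → ∀ r : ℕ,
  Nonempty (N ≃* FreeGroup (Fin (r + 1))) →
  ∃ S : Set V, (cay S).Connected ∧ (∀ g x y : V, (cay S).Adj x y → (cay S).Adj (g * x) (g * y)) ∧
    ∀ C : Set V, AI C → Cut (cay S) C

end Pool.Agent.VFS
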