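import Pool.Agent.Lib.MP_305fdd_al.VF.S.Stm

set_option autoImplicit false

namespace Pool.Agent.VFS

open Pointwise

private theorem pt_key (h8 : S_ori) {V : Type} {M : Set (Set V)} (hM : NF M) {C : Set V}
    (hC : C ∈ M) (U : {U : Set (Set V) // Ori M U}) (e : {e : Set (Set V) // ∃ C ∈ M, e = {C, Cᶜ}})
    (hadj : ∃ D ∈ e.1, MinIn U.1 D) (hne : pt M C (Sum.inl U) ≠ pt M C (Sum.inr e)) :
    U.1 = UC M C ∧ e.1 = {C, Cᶜ} := by
  classical
  obtain ⟨D, hDe, hD⟩ := hadj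
  obtain ⟨E, hE, he⟩ := e.2
  have hDM : D ∈ M := U.2.1 hD.1
  have he' : e.1 = {D, Dᶜ} := by
    rw [he] at hDe ⊢
    rcases hDe with h | h
    · rw [h]
    · rw [Set.mem_singleton_iff] at h
      rw [h, compl_compl, Set.pair_comm]
  have hU : U.1 = UC M D := (h8 V M hM D hDM).2.2 U.1 U.2 hD
  by_cases h1 : C = D
  · subst h1
    exact ⟨hU, he'⟩
  exfalso
  apply hne
  have hmem : ∀ S, S ∈ e.1 ↔ S = D ∨ S = Dᶜ := fun S => by
    rw [he', Set.mem_insert_iff, Set.mem_singleton_iff]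
  by_cases h2 : C = Dᶜ
  · have h3 : C ∉ U.1 := by
      rw [h2]
      exact (U.2.2.1 D hDM).1 hD.1
    have h4 : C ∈ e.1 := (hmem C).2 (Or.inr h2)
    simp only [pt, h3, h4, if_false, not_true_eq_false, false_and]
  · have h4 : C ∉ e.1 := fun h => ((hmem C).1 h).elim h1 h2
    have h5 : C ∈ U.1 ↔ C ∉ e.1 ∧ ∃ D' ∈ e.1, D' ⊆ C := by
      rw [hU]
      constructor
      · rintro ⟨-, h | ⟨h, -⟩⟩
        · exact ⟨h4, D, (hmem D).2 (Or.inl rfl), h⟩
        · exact ⟨h4, Dᶜ, (hmem _).2 (Or.inr rfl), h⟩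
      · rintro ⟨-, D', hD', h⟩
        rcases (hmem D').1 hD' with rfl | rfl
        · exact ⟨hC, Or.inl h⟩
        · exact ⟨hC, Or.inr ⟨h, h2⟩⟩
    simp only [pt, h5]

theorem p_pt (h8 : S_ori) : S_pt := by
  classical
  intro V M hM C hC h
  refine ⟨?_, ?_, ?_⟩
  · have h1 : C ∈ UC M C := ⟨hC, Or.inl subset_rfl⟩
    simp only [pt, h1, if_true]
  · have h1 : C ∈ ({C, Cᶜ} : Set (Set V)) := Or.inl rfl
    simp only [pt, h1, not_true_eq_false, false_and, if_false]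
  · intro a b hab hne
    rcases a with U | e <;> rcases b with U' | e'
    · exact hab.elim
    · left
      obtain ⟨h1, h2⟩ := pt_key h8 hM hC U e' hab hne
      exact ⟨congrArg Sum.inl (Subtype.ext h1), congrArg Sum.inr (Subtype.ext h2)⟩
    · right
      obtain ⟨h1, h2⟩ := pt_key h8 hM hC U' e hab hne.symm
      exact ⟨congrArg Sum.inr (Subtype.ext h2), congrArg Sum.inl (Subtype.ext h1)⟩
    · exact hab.elim

end Pool.Agent.VFS
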